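import Mathlib

namespace Pool.Agent.Helper64.Nita

/-- A C-NITA: a commutative `ℂ`-algebra `A` with basis `b` (indexed by a countable type `ι`),
nonnegative integral structure constants `N`, an involutive automorphism `conj` permuting the basis
through `bar`, the weights `g` of (TA3), and the degree homomorphism `deg`. -/
structure CNITA (ι A : Type*) [CommRing A] [Algebra ℂ A] where
  countable : Countable ι
  b : Module.Basis ι ℂ A
  one : ι
  b_one : b one = 1
  N : ι → ι → ι →₀ ℕ
  mul_b : ∀ i j, b i * b j = (N i j).sum fun m c => (c : ℂ) • b m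
  conj : A ≃ₐ[ℂ] A
  conj_conj : ∀ a, conj (conj a) = a
  bar : ι → ι
  conj_b : ∀ i, conj (b i) = b (bar i)
  g : ι → ι → ℝ
  g_pos : ∀ i j, 0 < g i j
  table : ∀ i j m, (N i j m : ℝ) = g i m * N (bar j) m i
  deg : A →ₐ[ℂ] ℂ
  degNat : ι → ℕ
  deg_b : ∀ i, deg (b i) = degNat i
  degNat_pos : ∀ i, 0 < degNat i
  degNat_bar : ∀ i, degNat (bar i) = degNat i
  deg_unique : ∀ f : A →ₐ[ℂ] ℂ,
    (∀ i, f (b i) = f (b (bar i)) ∧ ∃ r : ℝ, 0 < r ∧ f (b i) = r) → f = deg
  N_bar_one : ∀ i, N i (bar i) one = 1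

namespace CNITA
variable {ι A : Type*} [CommRing A] [Algebra ℂ A] (C : CNITA ι A)

/-- `(A, B)` is generated by `b x`: every basis element occurs with positive coefficient in some
monomial in `b x` and its conjugate -/
def Generates (x : ι) : Prop :=
  ∀ m, ∃ p q : ℕ, ∃ r : ℝ, 0 < r ∧ C.b.repr (C.b x ^ p * C.b (C.bar x) ^ q) m = (r : ℂ)

/-- the Hermitian form `(a, a)` for which the basis is orthonormal -/
noncomputable def sq (a : A) : ℝ := (C.b.repr a).sum fun _ z => ‖z‖ ^ 2

/-! ### algebra lemmas -/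

theorem repr_mul' (i j m : ι) : C.b.repr (C.b i * C.b j) m = (C.N i j m : ℂ) := by
  have h : C.b i * C.b j = Finsupp.linearCombination ℂ C.b
      ((C.N i j).mapRange (fun n : ℕ => (n : ℂ)) Nat.cast_zero) := by
    rw [C.mul_b, Finsupp.linearCombination_apply, Finsupp.sum_mapRange_index (by simp)]
  rw [h, C.b.repr_linearCombination, Finsupp.mapRange_apply]

theorem bar_bar' (i : ι) : C.bar (C.bar i) = i := by
  apply C.b.injective
  rw [← C.conj_b, ← C.conj_b, C.conj_conj]

theorem bar_one' : C.bar C.one = C.one := by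
  apply C.b.injective
  rw [← C.conj_b, C.b_one, map_one]

theorem repr_conj' (a : A) (m : ι) : C.b.repr (C.conj a) m = C.b.repr a (C.bar m) := by
  classical
  have h : (C.b.coord m) ∘ₗ C.conj.toLinearMap = C.b.coord (C.bar m) := by
    apply C.b.ext
    intro i
    simp only [LinearMap.comp_apply, AlgEquiv.toLinearMap_apply, Module.Basis.coord_apply, C.conj_b,
      Module.Basis.repr_self, Finsupp.single_apply]
    by_cases h1 : C.bar i = m
    · rw [if_pos h1, if_pos (by rw [← h1, C.bar_bar'])]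
    · rw [if_neg h1, if_neg (fun h2 => h1 (by rw [h2, C.bar_bar']))]
  exact LinearMap.congr_fun h a

theorem N_comm' (i j : ι) : C.N i j = C.N j i := by
  ext m
  have h : (C.N i j m : ℂ) = (C.N j i m : ℂ) := by
    rw [← C.repr_mul', ← C.repr_mul', mul_comm]
  exact_mod_cast h

theorem N_bar' (i j m : ι) : C.N (C.bar i) (C.bar j) (C.bar m) = C.N i j m := by
  have h : (C.N (C.bar i) (C.bar j) (C.bar m) : ℂ) = (C.N i j m : ℂ) := by
    rw [← C.repr_mul', ← C.repr_mul', ← C.conj_b, ← C.conj_b, ← map_mul, C.repr_conj', C.bar_bar']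
  exact_mod_cast h

open Classical in
theorem N_one' (i m : ι) : C.N i C.one m = if i = m then 1 else 0 := by
  have h : (C.N i C.one m : ℂ) = ((if i = m then 1 else 0 : ℕ) : ℂ) := by
    rw [← C.repr_mul', C.b_one, mul_one, Module.Basis.repr_self, Finsupp.single_apply]
    push_cast
    rfl
  exact_mod_cast h

theorem g_one' (i : ι) : C.g i C.one = 1 := by
  classical
  have h := C.table i (C.bar i) C.one
  rw [C.N_bar_one, C.bar_bar', C.N_one', if_pos rfl] at h
  simpa using h.symm

open Classical in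
theorem N_to_one' (i j : ι) : C.N i j C.one = if C.bar j = i then 1 else 0 := by
  have h := C.table i j C.one
  rw [C.g_one', C.N_one', one_mul] at h
  exact_mod_cast h

theorem tau_mul' (a : A) (m : ι) :
    C.b.repr (a * C.b (C.bar m)) C.one = C.b.repr a m := by
  classical
  have h : (C.b.coord C.one) ∘ₗ (LinearMap.mulRight ℂ (C.b (C.bar m))) = C.b.coord m := by
    apply C.b.ext
    intro i
    simp only [LinearMap.comp_apply, LinearMap.mulRight_apply, Module.Basis.coord_apply,
      Module.Basis.repr_self, Finsupp.single_apply]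
    rw [C.repr_mul', C.N_to_one', C.bar_bar']
    by_cases h1 : m = i
    · rw [if_pos h1, if_pos h1.symm]; simp
    · rw [if_neg h1, if_neg (fun h2 => h1 h2.symm)]; simp
  exact LinearMap.congr_fun h a

theorem N_adj' (i j m : ι) : C.N i j m = C.N (C.bar j) m i := by
  have h : (C.N i j m : ℂ) = (C.N (C.bar j) m i : ℂ) := by
    rw [← C.repr_mul', ← C.repr_mul', ← C.tau_mul', ← C.tau_mul' (C.b (C.bar j) * C.b m) i]
    have h1 : C.b (C.bar j) * C.b m * C.b (C.bar i) =
        C.conj (C.b i * C.b j * C.b (C.bar m)) := by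
      rw [map_mul, map_mul, C.conj_b, C.conj_b, C.conj_b, C.bar_bar']
      ring
    rw [h1, C.repr_conj', C.bar_one']
  exact_mod_cast h

/-- the symmetric structure constants -/
def T (x y z : ι) : ℕ := C.N x y (C.bar z)

theorem N_eq_T (x y z : ι) : C.N x y z = C.T x y (C.bar z) := by
  unfold T; rw [C.bar_bar']

theorem T_swap (x y z : ι) : C.T x y z = C.T y x z := by
  unfold T; rw [C.N_comm']

theorem T_bar (x y z : ι) : C.T (C.bar x) (C.bar y) (C.bar z) = C.T x y z := by
  unfold T; rw [C.N_bar']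

theorem T_swap' (x y z : ι) : C.T x y z = C.T x z y := by
  unfold T
  rw [C.N_adj' x y, C.N_adj' x z, C.N_comm' (C.bar y)]

open Classical in
theorem T_one (x y : ι) : C.T C.one x y = if C.bar x = y then 1 else 0 := by
  unfold T
  rw [C.N_comm', C.N_one']
  by_cases h : C.bar x = y
  · rw [if_pos (by rw [← h, C.bar_bar']), if_pos h]
  · rw [if_neg (fun h2 => h (by rw [h2, C.bar_bar'])), if_neg h]

/-- degrees are multiplicative -/
theorem deg_sum (x y : ι) :
    ((C.N x y).sum fun m c => c * C.degNat m) = C.degNat x * C.degNat y := by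
  have h : (((C.N x y).sum fun m c => c * C.degNat m : ℕ) : ℂ) = ((C.degNat x * C.degNat y : ℕ) : ℂ) := by
    have h1 := congrArg C.deg (C.mul_b x y)
    rw [map_mul, C.deg_b, C.deg_b, Finsupp.sum, map_sum] at h1
    rw [Finsupp.sum]
    push_cast
    rw [h1]
    refine Finset.sum_congr rfl fun m _ => ?_
    rw [map_smul, C.deg_b, smul_eq_mul]
  exact_mod_cast h

/-- four-fold structure constants -/
noncomputable def F (x y z w : ι) : ℕ := (C.N x y).sum fun m c => c * C.T m z w

theorem F_eq (x y z w : ι) :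
    (C.F x y z w : ℂ) = C.b.repr (C.b x * C.b y * (C.b z * C.b w)) C.one := by
  rw [C.mul_b x y, Finsupp.sum, Finset.sum_mul, map_sum, Finsupp.finsetSum_apply]
  unfold F
  rw [Finsupp.sum]
  push_cast
  refine Finset.sum_congr rfl fun m _ => ?_
  have h : C.b.repr ((((C.N x y) m : ℂ) • C.b m) * (C.b z * C.b w)) C.one =
      ((C.N x y) m : ℂ) * C.b.repr (C.b m * C.b z * C.b w) C.one := by
    rw [smul_mul_assoc, map_smul, Finsupp.smul_apply, smul_eq_mul, mul_assoc]
  rw [h]
  congr 1
  have h2 := C.tau_mul' (C.b m * C.b z) (C.bar w)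
  rw [C.bar_bar'] at h2
  rw [h2, C.repr_mul']
  rfl

theorem F_swap (x y z w : ι) : C.F x y z w = C.F z w x y := by
  have h : (C.F x y z w : ℂ) = (C.F z w x y : ℂ) := by
    rw [C.F_eq, C.F_eq, mul_comm]
  exact_mod_cast h

theorem F_mid (x y z w : ι) : C.F x y z w = C.F x z y w := by
  have h : (C.F x y z w : ℂ) = (C.F x z y w : ℂ) := by
    rw [C.F_eq, C.F_eq]
    congr 2
    ring
  exact_mod_cast h

theorem F_last (x y z w : ι) : C.F x y z w = C.F x y w z := by
  have h : (C.F x y z w : ℂ) = (C.F x y w z : ℂ) := by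
    rw [C.F_eq, C.F_eq, mul_comm (C.b z)]
  exact_mod_cast h

end CNITA
end Pool.Agent.Helper64.Nita
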