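/-! Kernel-evaluable checker for refutations of partially known fusion rings. -/

namespace Pool.Agent.Helper64.Nita

/-- bucket -/
inductive Bk where
  | nil
  | cons (k v : Nat) (t : Bk)

def Bk.get : Bk → Nat → Nat
  | .nil, _ => 0
  | .cons k v t, q => bif Nat.beq k q then v else t.get q

/-- hash tree -/
inductive Tr where
  | lf (b : Bk)
  | nd (l r : Tr)

def Tr.get : Tr → Nat → Nat → Nat
  | .lf b, _, k => b.get k
  | .nd l r, h, k => bif Nat.beq (Nat.mod h 2) 0 then l.get (Nat.div h 2) k else r.get (Nat.div h 2) k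

def Tr.set : Tr → Nat → Nat → Nat → Tr
  | .lf b, _, k, v => .lf (.cons k v b)
  | .nd l r, h, k, v =>
    bif Nat.beq (Nat.mod h 2) 0 then .nd (l.set (Nat.div h 2) k v) r
    else .nd l (r.set (Nat.div h 2) k v)

def gt (t : Tr) (k : Nat) : Nat := t.get k k
def st (t : Tr) (k v : Nat) : Tr := t.set k k v

def mk : Nat → Tr
  | 0 => .lf .nil
  | n + 1 => .nd (mk n) (mk n)

def enc (a b c : Nat) : Nat := Nat.add (Nat.mul (Nat.add (Nat.mul a 64) b) 64) c

def srt (i j k : Nat) : Nat :=
  bif Nat.ble i j then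
    (bif Nat.ble j k then enc i j k else bif Nat.ble i k then enc i k j else enc k i j)
  else
    (bif Nat.ble i k then enc j i k else bif Nat.ble j k then enc j k i else enc k j i)

def prs (i j : Nat) : Nat :=
  bif Nat.ble i j then Nat.add (Nat.mul i 64) j else Nat.add (Nat.mul j 64) i

/-- state: number of elements, degrees, conjugates (plus one), gradings (plus 32), lower bounds,
upper bounds (plus one), known products -/
structure St where
  n : Nat
  dg : Tr
  br : Tr
  gr : Tr
  lo : Tr
  hi : Tr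
  kn : Tr

def St.lov (S : St) (i j k : Nat) : Nat := gt S.lo (srt i j k)
def St.bv (S : St) (i : Nat) : Nat := Nat.pred (gt S.br i)
def St.dv (S : St) (i : Nat) : Nat := gt S.dg i
def St.gv (S : St) (i : Nat) : Nat := gt S.gr i
def St.knv (S : St) (i j : Nat) : Bool := Nat.ble 1 (gt S.kn (prs i j))
/-- `0`: no information; `v + 1`: upper bound `v` -/
def St.hiv (S : St) (i j k : Nat) : Nat :=
  bif Nat.beq (Nat.add (Nat.add (S.gv i) (S.gv j)) (S.gv k)) 96 then
    (bif S.knv i j || (S.knv i k || S.knv j k) then Nat.succ (S.lov i j k) else gt S.hi (srt i j k))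
  else 1

def St.cf (S : St) (x y m : Nat) : Nat := S.lov x y (S.bv m)

def St.dsum (S : St) (x y : Nat) : List Nat → Nat
  | [] => 0
  | m :: L => Nat.add (Nat.mul (S.cf x y m) (S.dv m)) (S.dsum x y L)

def St.lsum (S : St) (x y z w : Nat) : List Nat → Nat
  | [] => 0
  | m :: L => Nat.add (Nat.mul (S.cf x y m) (S.lov m z w)) (S.lsum x y z w L)

def St.usum (S : St) (x y z w : Nat) : List Nat → Nat
  | [] => 0
  | m :: L => Nat.add (Nat.mul (S.cf x y m) (Nat.pred (S.hiv m z w))) (S.usum x y z w L)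

def St.qsum (S : St) (x y : Nat) : List Nat → Nat
  | [] => 0
  | m :: L => Nat.add (Nat.mul (S.cf x y m) (S.cf x y m)) (S.qsum x y L)

def St.hok (S : St) (z w : Nat) : List Nat → Bool
  | [] => true
  | m :: L => Nat.ble 1 (S.hiv m z w) && S.hok z w L

/-- strictly increasing, below `n` -/
def inc (n : Nat) : Nat → List Nat → Bool
  | _, [] => true
  | p, m :: L => Nat.ble p m && (Nat.blt m n && inc n (Nat.succ m) L)

def okL (n : Nat) (L : List Nat) : Bool := inc n 0 L

def nin (a : Nat) : List Nat → Bool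
  | [] => true
  | m :: L => !(Nat.beq a m) && nin a L

/-- rearrangements of a quadruple -/
def arr {α : Type} (t x y z w : Nat) (f : Nat → Nat → Nat → Nat → α) : α :=
  bif Nat.beq t 0 then f x y z w
  else bif Nat.beq t 1 then f z w x y
  else bif Nat.beq t 2 then f x z y w
  else bif Nat.beq t 3 then f y w x z
  else bif Nat.beq t 4 then f x w y z
  else f y z x w

def lt4 (n x y z w : Nat) : Bool := Nat.blt x n && (Nat.blt y n && (Nat.blt z n && Nat.blt w n))

/-- the sum over `LA` is an upper bound for the quadruple `x y z w` -/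
def St.upOk (S : St) (x y z w : Nat) (LA : List Nat) : Bool :=
  okL S.n LA && (Nat.beq (S.dsum x y LA) (Nat.mul (S.dv x) (S.dv y)) && S.hok z w LA)

def St.nrm (S : St) (p q r s : Nat) : Bool :=
  (Nat.beq r (S.bv p) && Nat.beq s (S.bv q)) || (Nat.beq r (S.bv q) && Nat.beq s (S.bv p))

/-- lower bound for the quadruple (with `pend = 1`: plus one for a missing constituent) -/
def St.lowOk (S : St) (p q r s pend : Nat) (L : List Nat) : Bool :=
  okL S.n L && (Nat.beq pend 0 || (S.nrm p q r s && Nat.blt (S.dsum p q L) (Nat.mul (S.dv p) (S.dv q))))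

def St.low (S : St) (p q r s pend : Nat) (L : List Nat) : Nat :=
  bif Nat.beq pend 0 then S.lsum p q r s L else Nat.succ (S.qsum p q L)

def St.setHi (S : St) (i j k v : Nat) : St :=
  { S with hi := st (st S.hi (srt i j k) (Nat.succ v)) (srt (S.bv i) (S.bv j) (S.bv k)) (Nat.succ v) }

def St.setLo (S : St) (i j k v : Nat) : St :=
  bif Nat.ble (S.lov i j k) v && Nat.ble (S.lov (S.bv i) (S.bv j) (S.bv k)) v then
    { S with lo := st (st S.lo (srt i j k) v) (srt (S.bv i) (S.bv j) (S.bv k)) v }
  else S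

def St.setKn (S : St) (i j : Nat) : St :=
  { S with kn := st (st S.kn (prs i j) 1) (prs (S.bv i) (S.bv j)) 1 }

/-- add a real element of degree `d` (grading zero) -/
def St.addR (S : St) (d : Nat) : St :=
  { n := Nat.succ S.n
    dg := st S.dg S.n d
    br := st S.br S.n (Nat.succ S.n)
    gr := st S.gr S.n 32
    lo := st S.lo (srt 0 S.n S.n) 1
    hi := S.hi
    kn := st S.kn (prs 0 S.n) 1 }

/-- add a pair of conjugate elements of degree `d` and gradings `g`, `g'` -/
def St.addN (S : St) (d g g' : Nat) : St :=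
  { n := Nat.succ (Nat.succ S.n)
    dg := st (st S.dg S.n d) (Nat.succ S.n) d
    br := st (st S.br S.n (Nat.succ (Nat.succ S.n))) (Nat.succ S.n) (Nat.succ S.n)
    gr := st (st S.gr S.n g) (Nat.succ S.n) g'
    lo := st S.lo (srt 0 S.n (Nat.succ S.n)) 1
    hi := S.hi
    kn := st (st S.kn (prs 0 S.n) 1) (prs 0 (Nat.succ S.n)) 1 }

/-- `x * y` contains the last added element (index `m`) with multiplicity `c` -/
def St.setT (S : St) (x y k c : Nat) : St := (S.setLo x y k c).setHi x y k c

def rng : Nat → List Nat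
  | 0 => []
  | n + 1 => n :: rng n

def St.exact (S : St) (i j : Nat) : List Nat → Bool
  | [] => true
  | k :: L => Nat.beq (S.hiv i j k) (Nat.succ (S.lov i j k)) && S.exact i j L

/-- grading of the constituents of `i * j` -/
def St.gg (S : St) (i j : Nat) : Nat := Nat.sub (Nat.add (S.gv i) (S.gv j)) 32

def kid (S : St) (i j m d : Nat) : List St :=
  bif Nat.beq (S.gg i j) 32 then
    [(S.addR d).setT i j S.n m, (S.addN d 32 32).setT i j (Nat.succ S.n) m]
  else [(S.addN d (S.gg i j) (Nat.sub 64 (S.gg i j))).setT i j (Nat.succ S.n) m]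

def kM (S : St) (i j r q d : Nat) : Nat → Nat → List St
  | 0, _ => []
  | f + 1, m =>
    bif Nat.ble (Nat.mul m d) r && (Nat.ble (Nat.mul m m) q &&
      Nat.ble r (Nat.mul d (Nat.sub (Nat.add m q) (Nat.mul m m)))) then
      kid S i j m d ++ kM S i j r q d f (Nat.succ m)
    else kM S i j r q d f (Nat.succ m)

def kD (S : St) (i j r q : Nat) : Nat → Nat → List St
  | 0, _ => []
  | f + 1, d => kM S i j r q d q 1 ++ kD S i j r q f (Nat.succ d)

def kids (S : St) (i j r q : Nat) : List St :=
  bif Nat.beq r 1 then kid S i j 1 1 else kD S i j r q (Nat.sub r 2) 3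

/-- instructions -/
inductive I where
  | sH (x y z w t : Nat) (LA LB : List Nat) (m v : Nat)
  | sQ (x y z w t : Nat) (LA LB : List Nat) (k v : Nat)
  | sL (x y z w t pend : Nat) (LA LB : List Nat) (m v : Nat)
  | sD (i j k v : Nat) (L : List Nat)
  | sK (i j : Nat) (L : List Nat)
  | cF (x y z w t pend : Nat) (LA LB : List Nat)
  | cD (i j : Nat) (L : List Nat)
  | cT (i j k : Nat)
  | sU (i j k : Nat) (L : List Nat)
  | sN (k : Nat)
  | cN (i j : Nat) (L : List Nat)
  | br (i j k v : Nat)
  | ex (i j x y : Nat) (LA : List Nat)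
  | hole

def guard' (b : Bool) (l : List St) : Option (List St) := bif b then some l else none

def step (c : I) (S : St) : Option (List St) :=
  match c with
  | .sH x y z w t LA LB m v =>
    guard' (lt4 S.n x y z w && (Nat.blt m S.n && (S.upOk x y z w LA && arr t x y z w fun p q r s =>
      okL S.n LB && (nin m LB && Nat.blt (S.usum x y z w LA)
        (Nat.add (S.lsum p q r s LB) (Nat.mul (S.cf p q m) (Nat.succ v)))))))
      [arr t x y z w fun _ _ r s => S.setHi m r s v]
  | .sQ x y z w t LA LB k v =>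
    guard' (lt4 S.n x y z w && (Nat.blt k S.n && (S.upOk x y z w LA && arr t x y z w fun p q r s =>
      S.nrm p q r s && (okL S.n LB && (nin (S.bv k) LB && Nat.blt (S.usum x y z w LA)
        (Nat.add (S.qsum p q LB) (Nat.mul (Nat.succ v) (Nat.succ v))))))))
      [arr t x y z w fun p q _ _ => S.setHi p q k v]
  | .sL x y z w t pend LA LB m v =>
    guard' (lt4 S.n x y z w && (Nat.blt m S.n && (Nat.ble 1 v && (S.lowOk x y z w pend LA &&
      arr t x y z w fun p q r s =>
        okL S.n LB && (nin m LB && (S.hok r s LB &&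
        (Nat.beq (Nat.add (S.dsum p q LB) (Nat.mul (S.cf p q m) (S.dv m))) (Nat.mul (S.dv p) (S.dv q)) &&
        Nat.blt (Nat.add (S.usum p q r s LB) (Nat.mul (S.cf p q m) (Nat.pred v)))
          (S.low x y z w pend LA))))))))
      [arr t x y z w fun _ _ r s => S.setLo m r s v]
  | .sD i j k v L =>
    guard' (lt4 S.n i j k k && (okL S.n L && (nin (S.bv k) L &&
      Nat.blt (Nat.mul (S.dv i) (S.dv j)) (Nat.add (S.dsum i j L) (Nat.mul (Nat.succ v) (S.dv k))))))
      [S.setHi i j k v]
  | .sK i j L =>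
    guard' (lt4 S.n i j i j && (okL S.n L && Nat.beq (S.dsum i j L) (Nat.mul (S.dv i) (S.dv j))))
      [S.setKn i j]
  | .cF x y z w t pend LA LB =>
    guard' (lt4 S.n x y z w && (S.upOk x y z w LA && arr t x y z w fun p q r s =>
      S.lowOk p q r s pend LB && Nat.blt (S.usum x y z w LA) (S.low p q r s pend LB)))
      []
  | .cD i j L =>
    guard' (lt4 S.n i j i j && (okL S.n L &&
      (Nat.blt (Nat.mul (S.dv i) (S.dv j)) (S.dsum i j L) ||
        (Nat.beq (Nat.add (S.dsum i j L) 2) (Nat.mul (S.dv i) (S.dv j)) ||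
        (Nat.beq (Nat.add (S.dsum i j L) 1) (Nat.mul (S.dv i) (S.dv j)) &&
          (!(Nat.beq (S.dv i) (S.dv j)) || (Nat.beq (Nat.add (S.gv i) (S.gv j)) 64 &&
          (!(Nat.beq (S.bv i) j) || (Nat.ble 1 (S.cf i j 0) && !(nin 0 L))))))))))
      []
  | .cT i j k =>
    guard' (lt4 S.n i j k k && (Nat.ble 1 (gt S.hi (srt i j k)) &&
      Nat.blt (Nat.pred (gt S.hi (srt i j k))) (S.lov i j k)))
      []
  | .sU i j k L =>
    guard' (lt4 S.n i j k k && (okL S.n L && (nin k L && (Nat.beq (S.dv k) 1 &&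
      (Nat.beq (Nat.add (S.gv k) 32) (Nat.add (S.gv i) (S.gv j)) &&
      Nat.beq (Nat.add (S.dsum i j L) 1) (Nat.mul (S.dv i) (S.dv j)))))))
      [S.setLo i j (S.bv k) 1]
  | .sN k =>
    guard' (Nat.ble 5 S.n && (Nat.blt k S.n && Nat.beq (S.dv k) 1)) [S.setHi 2 4 k 0]
  | .cN i j L =>
    guard' (Nat.ble 5 S.n && (((Nat.beq i 2 && Nat.beq j 4) ||
      (Nat.beq i (S.bv 2) && Nat.beq j (S.bv 4))) && (lt4 S.n i j i j && (okL S.n L &&
      Nat.beq (Nat.add (S.dsum i j L) 1) (Nat.mul (S.dv i) (S.dv j)))))) []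
  | .br i j k v =>
    guard' (lt4 S.n i j k k) [S.setHi i j k v, S.setLo i j k (Nat.succ v)]
  | .ex i j x y LA =>
    guard' (lt4 S.n i j x y && (((Nat.beq x i && Nat.beq y j) || (Nat.beq x j && Nat.beq y i)) &&
      (S.upOk x (S.bv x) y (S.bv y) LA && (S.exact i j (rng S.n) &&
      (Nat.blt (S.dsum i j (rng S.n)) (Nat.mul (S.dv i) (S.dv j)) &&
      (Nat.ble (Nat.add S.n 2) 64 && (Nat.ble 5 S.n && (Nat.ble 32 (Nat.add (S.gv i) (S.gv j)) &&
      Nat.ble (Nat.add (S.gv i) (S.gv j)) 96))))))))
      (kids S i j (Nat.sub (Nat.mul (S.dv i) (S.dv j)) (S.dsum i j (rng S.n)))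
        (Nat.sub (S.usum x (S.bv x) y (S.bv y) LA) (S.qsum i j (rng S.n))))
  | .hole => none

/-- run a list of instructions; `hole`s are collected -/
def run : List I → St → List St → List St → Option (List St)
  | [], _, _, _ => none
  | c :: cs, S, stk, out =>
    match c with
    | .hole =>
      match stk with
      | [] => some (S :: out)
      | a :: r => run cs a r (S :: out)
    | _ =>
      match step c S with
      | none => none
      | some l =>
        match l ++ stk with
        | [] => some out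
        | a :: r => run cs a r out

def done : Option (List St) → Bool
  | some [] => true
  | _ => false

def hole? (o : Option (List St)) (k : Nat) : St :=
  match o with
  | some l => l.getD k ⟨0, mk 0, mk 0, mk 0, mk 0, mk 0, mk 0⟩
  | none => ⟨0, mk 0, mk 0, mk 0, mk 0, mk 0, mk 0⟩

def s0 : St :=
  { n := 1, dg := st (mk 4) 0 1, br := st (mk 4) 0 1, gr := st (mk 4) 0 32
    lo := st (mk 8) (srt 0 0 0) 1, hi := mk 8, kn := st (mk 7) (prs 0 0) 1 }

/-- initial state: `0` is `1`, `1` is `b_8`, `2, 3` are `b_3` and its conjugate, `4, 5` are `c_3` and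
its conjugate, `6, 7` are `b_6` and its conjugate -/
def initS : St :=
  ((((((((s0.addR 8).addN 3 33 31).addN 3 34 30).addN 6 34 30).setLo 2 3 1 1).setLo 2 2 5 1).setLo
    2 2 7 1).setT 1 1 1 3)

end Pool.Agent.Helper64.Nita
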