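import Pool.Agent.Helper64.Nita.Chk

/-! Decoding instructions from natural numbers (base 256). -/

namespace Pool.Agent.Helper64.Nita

/-- digit `k` of `n` in base 256 -/
def fd (n k : Nat) : Nat := Nat.mod (Nat.shiftRight n (Nat.mul 8 k)) 256

/-- the list of the `len` digits of `n` from position `k` on -/
def fl (n : Nat) : Nat → Nat → List Nat
  | 0, _ => []
  | len + 1, k => fd n k :: fl n len (Nat.succ k)

def dc (n : Nat) : I :=
  bif Nat.beq (fd n 0) 0 then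
    .sH (fd n 1) (fd n 2) (fd n 3) (fd n 4) (fd n 5) (fl n (fd n 8) 10)
      (fl n (fd n 9) (Nat.add 10 (fd n 8))) (fd n 6) (fd n 7)
  else bif Nat.beq (fd n 0) 2 then
    .sL (fd n 1) (fd n 2) (fd n 3) (fd n 4) (fd n 5) (fd n 10) (fl n (fd n 8) 11)
      (fl n (fd n 9) (Nat.add 11 (fd n 8))) (fd n 6) (fd n 7)
  else bif Nat.beq (fd n 0) 3 then
    .sD (fd n 1) (fd n 2) (fd n 3) (fd n 4) (fl n (fd n 5) 6)
  else bif Nat.beq (fd n 0) 4 then
    .sK (fd n 1) (fd n 2) (fl n (fd n 3) 4)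
  else bif Nat.beq (fd n 0) 1 then
    .sQ (fd n 1) (fd n 2) (fd n 3) (fd n 4) (fd n 5) (fl n (fd n 8) 10)
      (fl n (fd n 9) (Nat.add 10 (fd n 8))) (fd n 6) (fd n 7)
  else bif Nat.beq (fd n 0) 5 then
    .cF (fd n 1) (fd n 2) (fd n 3) (fd n 4) (fd n 5) (fd n 6) (fl n (fd n 7) 9)
      (fl n (fd n 8) (Nat.add 9 (fd n 7)))
  else bif Nat.beq (fd n 0) 6 then
    .cD (fd n 1) (fd n 2) (fl n (fd n 3) 4)
  else bif Nat.beq (fd n 0) 7 then
    .cT (fd n 1) (fd n 2) (fd n 3)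
  else bif Nat.beq (fd n 0) 8 then
    .br (fd n 1) (fd n 2) (fd n 3) (fd n 4)
  else bif Nat.beq (fd n 0) 9 then
    .ex (fd n 1) (fd n 2) (fd n 3) (fd n 4) (fl n (fd n 5) 6)
  else bif Nat.beq (fd n 0) 11 then
    .sU (fd n 1) (fd n 2) (fd n 3) (fl n (fd n 4) 5)
  else bif Nat.beq (fd n 0) 12 then
    .sN (fd n 1)
  else bif Nat.beq (fd n 0) 13 then
    .cN (fd n 1) (fd n 2) (fl n (fd n 3) 4)
  else .hole

end Pool.Agent.Helper64.Nita
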