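import Pool.Agent.Helper64.Nita.Rules

namespace Pool.Agent.Helper64.Nita

namespace FR
variable {κ : Type*} (R : FR κ)

theorem N_swap (x y z : κ) : R.N x y z = R.N y x z := by
  rw [R.N_eq_T, R.N_eq_T, R.T_swap]

theorem N_bar (x y z : κ) : R.N (R.bar x) (R.bar y) z = R.N x y (R.bar z) := by
  rw [R.N_eq_T, R.N_eq_T, R.T_bar, R.bar_bar]

theorem bar_one : R.bar R.one = R.one := by
  apply R.deg_one_eq
  · rw [R.deg_bar, R.deg_one]
  · exact R.deg_one
  · rw [R.gr_bar, R.gr_one]; rfl

theorem T_one_pos {x y : κ} (h : R.bar x = y) : R.T R.one x y = 1 := by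
  rw [R.T_one, if_pos h]

theorem T_one_zero {x y : κ} (h : R.bar x ≠ y) : R.T R.one x y = 0 := by
  rw [R.T_one, if_neg h]

end FR

namespace Sat
variable {κ : Type*} {R : FR κ} {a c : κ} {S : St} {e : ℕ → κ} (h : Sat R a c S e)
include h

theorem setKn {i j : ℕ} (hi : i < S.n) (hj : j < S.n)
    (h1 : ∀ k, k < S.n → R.T (e i) (e j) (e k) ≤ S.lov i j k)
    (h2 : ∀ x, R.N (e i) (e j) x ≠ 0 → ∃ k, k < S.n ∧ x = e k) : Sat R a c (S.setKn i j) e := by
  have hle := h.le
  have b1 := h.bvlt hi
  have b2 := h.bvlt hj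
  have hP : ∀ i j, ((∀ k, k < S.n → R.T (e i) (e j) (e k) ≤ S.lov i j k) ∧
      ∀ x, R.N (e i) (e j) x ≠ 0 → ∃ k, k < S.n ∧ x = e k) =
      ((∀ k, k < S.n → R.T (e j) (e i) (e k) ≤ S.lov j i k) ∧
      ∀ x, R.N (e j) (e i) x ≠ 0 → ∃ k, k < S.n ∧ x = e k) := by
    intro i j
    rw [eq_iff_iff]
    constructor
    · rintro ⟨g1, g2⟩
      exact ⟨fun k hk => by rw [R.T_swap, lov_comm1]; exact g1 k hk,
        fun x hx => g2 x (by rwa [R.N_swap])⟩
    · rintro ⟨g1, g2⟩
      exact ⟨fun k hk => by rw [R.T_swap, lov_comm1]; exact g1 k hk,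
        fun x hx => g2 x (by rwa [R.N_swap])⟩
  have hsym := fun {i j i' j' : ℕ} => prs_sym
    (fun i j => ((∀ k, k < S.n → R.T (e i) (e j) (e k) ≤ S.lov i j k) ∧
      ∀ x, R.N (e i) (e j) x ≠ 0 → ∃ k, k < S.n ∧ x = e k)) hP (i := i) (j := j) (i' := i') (j' := j')
  exact {
    pos := h.pos, le := h.le, e0 := h.e0, e2 := h.e2, e4 := h.e4, inj := h.inj, dg := h.dg
    gr := h.gr, br := h.br, hi := h.hi, fh := h.fh, lo := h.lo, lb := h.lb, fl := h.fl
    kn := by
      intro i' j' hi' hj' hk
      change i' < S.n at hi'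
      change j' < S.n at hj'
      simp only [St.knv, St.setKn, gt_st, ble_iff] at hk
      split_ifs at hk with g1 g2
      · have := hsym (by omega) (by omega) (by omega) (by omega) g1
        rw [eq_iff_iff] at this
        refine this.2 ⟨?_, ?_⟩
        · intro k hk'
          have hb : e k = R.bar (e (S.bv k)) := by rw [h.bare (h.bvlt hk'), h.bvbv hk']
          rw [← h.bare hi, ← h.bare hj, hb, R.T_bar]
          have h3 := h.lb i j (S.bv k) hi hj (h.bvlt hk')
          rw [h.bvbv hk'] at h3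
          rw [h3]
          exact h1 _ (h.bvlt hk')
        · intro x hx
          rw [← h.bare hi, ← h.bare hj, R.N_bar] at hx
          obtain ⟨k, hk', hx'⟩ := h2 _ hx
          exact ⟨S.bv k, h.bvlt hk', by rw [← h.bare hk', ← hx', R.bar_bar]⟩
      · have := hsym (by omega) (by omega) (by omega) (by omega) g2
        rw [eq_iff_iff] at this
        exact this.2 ⟨h1, h2⟩
      · exact h.kn i' j' hi' hj' ((ble_iff _ _).2 hk)
    fk := by
      intro i' j' hi' hj' hn
      change ¬(i' < S.n ∧ j' < S.n) at hn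
      have hs := fun {i j i' j' : ℕ} => prs_sym (fun i j => (i < S.n ∧ j < S.n))
        (fun _ _ => by rw [eq_iff_iff]; tauto) (i := i) (j := j) (i' := i') (j' := j')
      simp only [St.setKn, gt_st]
      rw [if_neg, if_neg]
      · exact h.fk i' j' hi' hj' hn
      · intro g
        have := hs hi' hj' (by omega) (by omega) g
        rw [eq_iff_iff] at this
        exact hn (this.2 ⟨hi, hj⟩)
      · intro g
        have := hs hi' hj' (by omega) (by omega) g
        rw [eq_iff_iff] at this
        exact hn (this.2 ⟨b1, b2⟩) }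

theorem ext {S' : St} {e' : ℕ → κ} {m : ℕ} (hm : m = S.n ∨ m = S.n + 1) (hn' : S'.n = m + 1)
    (hle : m + 1 ≤ 64) (he : ∀ i, i < S.n → e' i = e i) (he2 : e' 2 = a) (he4 : e' 4 = c)
    (hz : ∀ i, i < S.n → e i ≠ e' S.n) (hbar : R.bar (e' S.n) = e' m)
    (hne : m = S.n + 1 → e' m ≠ e' S.n)
    (hdv : ∀ i, i < S.n → S'.dv i = S.dv i) (hgv : ∀ i, i < S.n → S'.gv i = S.gv i)
    (hbv : ∀ i, i < S.n → S'.bv i = S.bv i)
    (hdn : S'.dv S.n = R.deg (e' S.n)) (hdm : S'.dv m = R.deg (e' S.n))
    (hgn : (S'.gv S.n : ℤ) = R.gr (e' S.n) + 32) (hgm : (S'.gv m : ℤ) = - R.gr (e' S.n) + 32)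
    (hbn : S'.bv S.n = m) (hbm : S'.bv m = S.n)
    (hlo : ∀ K, gt S'.lo K = if K = srt 0 S.n m then 1 else gt S.lo K)
    (hhi : S'.hi = S.hi)
    (hkn : ∀ K, gt S'.kn K = if K = prs 0 S.n ∨ K = prs 0 m then 1 else gt S.kn K) :
    Sat R a c S' e' := by
  have hpos := h.pos
  have hcase : ∀ i, i < m + 1 → i < S.n ∨ i = S.n ∨ i = m := by
    intro i hi; omega
  have hzm : ∀ i, i < S.n → e i ≠ e' m := by
    intro i hi h1
    apply hz (S.bv i) (h.bvlt hi)
    rw [← h.bare hi, h1, ← hbar, R.bar_bar]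
  have hinj : ∀ i j, i < m + 1 → j < m + 1 → e' i = e' j → i = j := by
    intro i j hi hj hij
    rcases hcase i hi with hi' | hi' | hi' <;> rcases hcase j hj with hj' | hj' | hj'
    · exact h.inj i j hi' hj' (by rw [← he i hi', ← he j hj', hij])
    · subst hj'; exact absurd (by rw [← he i hi', hij]) (hz i hi')
    · subst hj'; exact absurd (by rw [← he i hi', hij]) (hzm i hi')
    · subst hi'; exact absurd (by rw [← he j hj', hij]) (hz j hj')
    · omega
    · subst hi'; subst hj'
      rcases hm with hm | hm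
      · exact hm.symm
      · exact absurd hij.symm (hne hm)
    · subst hi'; exact absurd (by rw [← he j hj', hij]) (hzm j hj')
    · subst hi'; subst hj'
      rcases hm with hm | hm
      · exact hm
      · exact absurd hij (hne hm)
    · omega
  have hbarm : R.bar (e' m) = e' S.n := by rw [← hbar, R.bar_bar]
  have hbr : ∀ i, i < m + 1 → S'.bv i < m + 1 ∧ R.bar (e' i) = e' (S'.bv i) := by
    intro i hi
    rcases hcase i hi with hi' | hi' | hi'
    · rw [hbv i hi', he i hi', he _ (h.bvlt hi'), h.bare hi']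
      have := h.bvlt hi'
      exact ⟨by omega, rfl⟩
    · subst hi'; rw [hbn]; exact ⟨by omega, hbar⟩
    · subst hi'; rw [hbm]; exact ⟨by omega, hbarm⟩
  have hbb : ∀ i, i < m + 1 → S'.bv (S'.bv i) = i := by
    intro i hi
    apply hinj _ _ (hbr _ (hbr i hi).1).1 hi
    rw [← (hbr _ (hbr i hi).1).2, ← (hbr i hi).2, R.bar_bar]
  have h00 : S'.bv 0 = 0 := by
    apply hinj _ _ (hbr 0 (by omega)).1 (by omega)
    rw [← (hbr 0 (by omega)).2, he 0 hpos, h.e0, R.bar_one]
  have hbn' : ∀ i, i < m + 1 → (S'.bv i < S.n ↔ i < S.n) := by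
    intro i hi
    constructor
    · intro h1
      have h2 := h.bvlt h1
      rw [← hbv _ h1, hbb i hi] at h2
      exact h2
    · intro h1
      rw [hbv i h1]; exact h.bvlt h1
  have hK0 : gt S.lo (srt 0 S.n m) = 0 :=
    h.fl 0 S.n m (by omega) (by omega) (by omega) (by omega)
  have hmono : ∀ K, gt S.lo K ≤ gt S'.lo K := by
    intro K
    rw [hlo]
    split_ifs with h1
    · rw [h1, hK0]; exact Nat.zero_le _
    · exact le_rfl
  have hl1 : S'.lov 0 S.n m = 1 := by
    unfold St.lov; rw [hlo, if_pos rfl]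
  have hN0 : e' 0 = R.one := by rw [he 0 hpos, h.e0]
  refine {
    pos := by omega
    le := by omega
    e0 := hN0
    e2 := he2
    e4 := he4
    inj := by rw [hn']; exact hinj
    dg := ?_
    gr := ?_
    br := by rw [hn']; exact hbr
    lo := ?_
    lb := ?_
    hi := ?_
    kn := ?_
    fl := ?_
    fh := ?_
    fk := ?_ }
  · rw [hn']
    intro i hi
    rcases hcase i hi with hi' | hi' | hi'
    · rw [hdv i hi', h.dg i hi', he i hi']
    · subst hi'; exact hdn
    · subst hi'; rw [hdm, ← R.deg_bar (e' S.n), hbar]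
  · rw [hn']
    intro i hi
    rcases hcase i hi with hi' | hi' | hi'
    · rw [hgv i hi', h.gr i hi', he i hi']
    · subst hi'; exact hgn
    · subst hi'; rw [hgm, ← hbar, R.gr_bar]
  · rw [hn']
    intro i j k hi hj hk
    have hsym := fun {i j k i' j' k' : ℕ} => srt_sym (fun i j k => R.T (e' i) (e' j) (e' k))
      (fun _ _ _ => R.T_swap _ _ _) (fun _ _ _ => R.T_swap' _ _ _) (i := i) (j := j) (k := k)
      (i' := i') (j' := j') (k' := k')
    simp only [St.lov]
    rw [hlo]
    split_ifs with h1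
    · have := hsym (by omega) (by omega) (by omega) (by omega) (by omega) (by omega) h1
      rw [this, hN0, R.T_one_pos hbar]
    · by_cases h2 : i < S.n ∧ j < S.n ∧ k < S.n
      · rw [he i h2.1, he j h2.2.1, he k h2.2.2]
        exact h.lo i j k h2.1 h2.2.1 h2.2.2
      · rw [h.fl i j k (by omega) (by omega) (by omega) h2]; exact Nat.zero_le _
  · rw [hn']
    intro i j k hi hj hk
    have c1 := (hbr i hi).1
    have c2 := (hbr j hj).1
    have c3 := (hbr k hk).1
    have hsym := fun {i j k i' j' k' : ℕ} => srt_sym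
      (fun i j k => srt (S'.bv i) (S'.bv j) (S'.bv k))
      (fun _ _ _ => srt_comm1 _ _ _) (fun _ _ _ => srt_comm2 _ _ _) (i := i) (j := j) (k := k)
      (i' := i') (j' := j') (k' := k')
    have f1 : srt (S'.bv i) (S'.bv j) (S'.bv k) = srt 0 S.n m ↔ srt i j k = srt 0 S.n m := by
      constructor
      · intro h1
        have := hsym (by omega) (by omega) (by omega) (by omega) (by omega) (by omega) h1
        rw [hbb i hi, hbb j hj, hbb k hk, h00, hbn, hbm, srt_comm2 0 m] at this
        exact this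
      · intro h1
        have := hsym (by omega) (by omega) (by omega) (by omega) (by omega) (by omega) h1
        rw [h00, hbn, hbm, srt_comm2 0 m] at this
        exact this
    unfold St.lov
    rw [hlo, hlo]
    by_cases g1 : srt i j k = srt 0 S.n m
    · rw [if_pos (f1.2 g1), if_pos g1]
    · rw [if_neg (fun h' => g1 (f1.1 h')), if_neg g1]
      by_cases h2 : i < S.n ∧ j < S.n ∧ k < S.n
      · rw [hbv i h2.1, hbv j h2.2.1, hbv k h2.2.2]
        exact h.lb i j k h2.1 h2.2.1 h2.2.2
      · rw [h.fl i j k (by omega) (by omega) (by omega) h2,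
          h.fl _ _ _ (by omega) (by omega) (by omega) (by
            rw [hbn' i hi, hbn' j hj, hbn' k hk]; exact h2)]
  · rw [hn']
    intro i j k hi hj hk hv
    rw [hhi] at hv ⊢
    by_cases h2 : i < S.n ∧ j < S.n ∧ k < S.n
    · rw [he i h2.1, he j h2.2.1, he k h2.2.2]
      exact h.hi i j k h2.1 h2.2.1 h2.2.2 hv
    · rw [h.fh i j k (by omega) (by omega) (by omega) h2] at hv
      exact absurd hv (by omega)
  · rw [hn']
    intro i j hi hj hk
    have hP : ∀ i j, ((∀ k, k < m + 1 → R.T (e' i) (e' j) (e' k) ≤ S'.lov i j k) ∧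
        ∀ x, R.N (e' i) (e' j) x ≠ 0 → ∃ k, k < m + 1 ∧ x = e' k) =
        ((∀ k, k < m + 1 → R.T (e' j) (e' i) (e' k) ≤ S'.lov j i k) ∧
        ∀ x, R.N (e' j) (e' i) x ≠ 0 → ∃ k, k < m + 1 ∧ x = e' k) := by
      intro i j
      rw [eq_iff_iff]
      constructor
      · rintro ⟨g1, g2⟩
        exact ⟨fun k hk => by rw [R.T_swap, lov_comm1]; exact g1 k hk,
          fun x hx => g2 x (by rwa [R.N_swap])⟩
      · rintro ⟨g1, g2⟩
        exact ⟨fun k hk => by rw [R.T_swap, lov_comm1]; exact g1 k hk,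
          fun x hx => g2 x (by rwa [R.N_swap])⟩
    have hsym := fun {i j i' j' : ℕ} => prs_sym
      (fun i j => ((∀ k, k < m + 1 → R.T (e' i) (e' j) (e' k) ≤ S'.lov i j k) ∧
        ∀ x, R.N (e' i) (e' j) x ≠ 0 → ∃ k, k < m + 1 ∧ x = e' k)) hP
      (i := i) (j := j) (i' := i') (j' := j')
    simp only [St.knv, ble_iff] at hk
    rw [hkn] at hk
    split_ifs at hk with g
    · rcases g with g | g
      · have := hsym (by omega) (by omega) (by omega) (by omega) g
        rw [eq_iff_iff] at this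
        refine this.2 ⟨?_, ?_⟩
        · intro k hk'
          by_cases h3 : e' m = e' k
          · rw [← hinj m k (by omega) hk' h3, hN0, R.T_one_pos hbar, hl1]
          · rw [hN0, R.T_one_zero (by rw [hbar]; exact h3)]; exact Nat.zero_le _
        · intro x hx
          rw [R.N_eq_T, hN0] at hx
          by_cases h3 : R.bar (e' S.n) = R.bar x
          · refine ⟨S.n, by omega, ?_⟩
            rw [← R.bar_bar x, ← h3, R.bar_bar]
          · exact absurd (R.T_one_zero h3) hx
      · have := hsym (by omega) (by omega) (by omega) (by omega) g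
        rw [eq_iff_iff] at this
        refine this.2 ⟨?_, ?_⟩
        · intro k hk'
          by_cases h3 : e' S.n = e' k
          · rw [← hinj S.n k (by omega) hk' h3, hN0, R.T_one_pos hbarm, lov_comm2, hl1]
          · rw [hN0, R.T_one_zero (by rw [hbarm]; exact h3)]; exact Nat.zero_le _
        · intro x hx
          rw [R.N_eq_T, hN0] at hx
          by_cases h3 : R.bar (e' m) = R.bar x
          · refine ⟨m, by omega, ?_⟩
            rw [← R.bar_bar x, ← h3, R.bar_bar]
          · exact absurd (R.T_one_zero h3) hx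
    · by_cases h2 : i < S.n ∧ j < S.n
      · obtain ⟨g1, g2⟩ := h.kn i j h2.1 h2.2 ((ble_iff _ _).2 hk)
        have h0 : ∀ k, (k = S.n ∨ k = m) → R.T (e' i) (e' j) (e' k) = 0 := by
          intro k hk'
          by_contra h0
          have h1 : R.N (e i) (e j) (R.bar (e' k)) ≠ 0 := by
            rw [R.N_eq_T, R.bar_bar, ← he i h2.1, ← he j h2.2]; exact h0
          obtain ⟨k', hk1, hk2⟩ := g2 _ h1
          have h3 : e' k = e (S.bv k') := by rw [← h.bare hk1, ← hk2, R.bar_bar]
          rcases hk' with rfl | rfl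
          · exact hz _ (h.bvlt hk1) h3.symm
          · exact hzm _ (h.bvlt hk1) h3.symm
        refine ⟨?_, ?_⟩
        · intro k hk'
          rcases hcase k hk' with h3 | h3 | h3
          · rw [he i h2.1, he j h2.2, he k h3]
            exact le_trans (g1 k h3) (hmono _)
          · rw [h0 k (Or.inl h3)]; exact Nat.zero_le _
          · rw [h0 k (Or.inr h3)]; exact Nat.zero_le _
        · intro x hx
          rw [he i h2.1, he j h2.2] at hx
          obtain ⟨k', hk1, hk2⟩ := g2 _ hx
          exact ⟨k', by omega, by rw [hk2, he k' hk1]⟩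
      · rw [h.fk i j (by omega) (by omega) h2] at hk
        exact absurd hk (by omega)
  · rw [hn']
    intro i j k hi hj hk hn
    have hsym := fun {i j k i' j' k' : ℕ} => srt_sym
      (fun i j k => (i < m + 1 ∧ j < m + 1 ∧ k < m + 1))
      (fun _ _ _ => by rw [eq_iff_iff]; tauto) (fun _ _ _ => by rw [eq_iff_iff]; tauto)
      (i := i) (j := j) (k := k) (i' := i') (j' := j') (k' := k')
    rw [hlo, if_neg]
    · exact h.fl i j k hi hj hk (by omega)
    · intro h1
      have := hsym hi hj hk (by omega) (by omega) (by omega) h1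
      rw [eq_iff_iff] at this
      exact hn (this.2 ⟨by omega, by omega, by omega⟩)
  · rw [hn']
    intro i j k hi hj hk hn
    rw [hhi]
    exact h.fh i j k hi hj hk (by omega)
  · rw [hn']
    intro i j hi hj hn
    have hs := fun {i j i' j' : ℕ} => prs_sym (fun i j => (i < m + 1 ∧ j < m + 1))
      (fun _ _ => by rw [eq_iff_iff]; tauto) (i := i) (j := j) (i' := i') (j' := j')
    rw [hkn, if_neg]
    · exact h.fk i j hi hj (by omega)
    · rintro (g | g)
      · have := hs hi hj (by omega) (by omega) g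
        rw [eq_iff_iff] at this
        exact hn (this.2 ⟨by omega, by omega⟩)
      · have := hs hi hj (by omega) (by omega) g
        rw [eq_iff_iff] at this
        exact hn (this.2 ⟨by omega, by omega⟩)

theorem addR {d : ℕ} {e' : ℕ → κ} (hle : S.n + 1 ≤ 64) (he : ∀ i, i < S.n → e' i = e i)
    (he2 : e' 2 = a) (he4 : e' 4 = c) (hz : ∀ i, i < S.n → e i ≠ e' S.n)
    (hbar : R.bar (e' S.n) = e' S.n) (hd : R.deg (e' S.n) = d) : Sat R a c (S.addR d) e' := by
  have hg : R.gr (e' S.n) = 0 := by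
    have := R.gr_bar (e' S.n)
    rw [hbar] at this; linarith
  refine h.ext (m := S.n) (Or.inl rfl) rfl hle he he2 he4 hz hbar (fun h' => by omega)
    ?_ ?_ ?_ ?_ ?_ ?_ ?_ ?_ ?_ ?_ rfl ?_
  · intro i hi; simp only [St.dv, St.addR, gt_st]; rw [if_neg (by omega)]
  · intro i hi; simp only [St.gv, St.addR, gt_st]; rw [if_neg (by omega)]
  · intro i hi; simp only [St.bv, St.addR, gt_st]; rw [if_neg (by omega)]
  · simp only [St.dv, St.addR, gt_st, if_true]; exact hd.symm
  · simp only [St.dv, St.addR, gt_st, if_true]; exact hd.symm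
  · simp only [St.gv, St.addR, gt_st, if_true]; rw [hg]; rfl
  · simp only [St.gv, St.addR, gt_st, if_true]; rw [hg]; rfl
  · simp only [St.bv, St.addR, gt_st, if_true]; rfl
  · simp only [St.bv, St.addR, gt_st, if_true]; rfl
  · intro K; simp only [St.addR, gt_st]
  · intro K; simp only [St.addR, gt_st, or_self]

theorem addN {d g g' : ℕ} {e' : ℕ → κ} (hle : S.n + 2 ≤ 64) (he : ∀ i, i < S.n → e' i = e i)
    (he2 : e' 2 = a) (he4 : e' 4 = c) (hz : ∀ i, i < S.n → e i ≠ e' S.n)
    (hbar : R.bar (e' S.n) = e' (S.n + 1)) (hne : e' (S.n + 1) ≠ e' S.n)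
    (hd : R.deg (e' S.n) = d) (hg : (g : ℤ) = R.gr (e' S.n) + 32)
    (hg' : (g' : ℤ) = - R.gr (e' S.n) + 32) : Sat R a c (S.addN d g g') e' := by
  refine h.ext (m := S.n + 1) (Or.inr rfl) rfl hle he he2 he4 hz hbar (fun _ => hne)
    ?_ ?_ ?_ ?_ ?_ ?_ ?_ ?_ ?_ ?_ rfl ?_
  · intro i hi; simp only [St.dv, St.addN, gt_st]; rw [if_neg (by simp; omega), if_neg (by omega)]
  · intro i hi; simp only [St.gv, St.addN, gt_st]; rw [if_neg (by simp; omega), if_neg (by omega)]
  · intro i hi; simp only [St.bv, St.addN, gt_st]; rw [if_neg (by simp; omega), if_neg (by omega)]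
  · simp only [St.dv, St.addN, gt_st, if_true]; rw [if_neg (by simp)]; exact hd.symm
  · simp only [St.dv, St.addN, gt_st, if_true]; exact hd.symm
  · simp only [St.gv, St.addN, gt_st, if_true]; rw [if_neg (by simp)]; exact hg
  · simp only [St.gv, St.addN, gt_st, if_true]; exact hg'
  · simp only [St.bv, St.addN, gt_st, if_true]; rw [if_neg (by simp)]; rfl
  · simp only [St.bv, St.addN, gt_st, if_true]; rfl
  · intro K; simp only [St.addN, gt_st]
  · intro K; simp only [St.addN, gt_st]
    by_cases h1 : K = prs 0 (S.n + 1)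
    · rw [if_pos h1, if_pos (Or.inr h1)]
    · rw [if_neg h1]
      by_cases h2 : K = prs 0 S.n
      · rw [if_pos h2, if_pos (Or.inl h2)]
      · rw [if_neg h2, if_neg (by tauto)]

end Sat
end Pool.Agent.Helper64.Nita
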