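import Pool.Agent.Helper64.Nita.CDef

namespace Pool.Agent.Helper64.Nita

open Classical in
/-- Graded fusion data. -/
structure FR (κ : Type*) where
  one : κ
  bar : κ → κ
  deg : κ → ℕ
  gr : κ → ℤ
  N : κ → κ → κ →₀ ℕ
  T : κ → κ → κ → ℕ
  F : κ → κ → κ → κ → ℕ
  N_eq_T : ∀ x y z, N x y z = T x y (bar z)
  bar_bar : ∀ x, bar (bar x) = x
  deg_pos : ∀ x, 0 < deg x
  deg_bar : ∀ x, deg (bar x) = deg x
  gr_bar : ∀ x, gr (bar x) = - gr x
  T_swap : ∀ x y z, T x y z = T y x z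
  T_swap' : ∀ x y z, T x y z = T x z y
  T_bar : ∀ x y z, T (bar x) (bar y) (bar z) = T x y z
  T_one : ∀ x y, T one x y = if bar x = y then 1 else 0
  T_gr : ∀ x y z, T x y z ≠ 0 → gr x + gr y + gr z = 0
  F_def : ∀ x y z w, F x y z w = (N x y).sum fun m c => c * T m z w
  F_swap : ∀ x y z w, F x y z w = F z w x y
  F_mid : ∀ x y z w, F x y z w = F x z y w
  F_last : ∀ x y z w, F x y z w = F x y w z
  deg_sum : ∀ x y, ((N x y).sum fun m c => c * deg m) = deg x * deg y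
  deg_one : deg one = 1
  gr_one : gr one = 0
  deg_one_eq : ∀ x y, deg x = 1 → deg y = 1 → gr x = gr y → x = y
  deg_ne_two : ∀ x, deg x ≠ 2

namespace CNITA
variable {ι A : Type*} [CommRing A] [Algebra ℂ A] (C : CNITA ι A)

theorem degNat_one : C.degNat C.one = 1 := by
  have h : (C.degNat C.one : ℂ) = ((1 : ℕ) : ℂ) := by
    rw [← C.deg_b, C.b_one, map_one]; simp
  exact_mod_cast h

/-- the graded fusion data `B × ℤ` -/
noncomputable def toFR (h1 : ∀ i, C.degNat i = 1 → i = C.one) (h2 : ∀ i, C.degNat i ≠ 2) :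
    FR (ι × ℤ) where
  one := (C.one, 0)
  bar x := (C.bar x.1, - x.2)
  deg x := C.degNat x.1
  gr x := x.2
  N x y := Finsupp.mapDomain (fun m => (m, x.2 + y.2)) (C.N x.1 y.1)
  T x y z := if x.2 + y.2 + z.2 = 0 then C.T x.1 y.1 z.1 else 0
  F x y z w := if x.2 + y.2 + z.2 + w.2 = 0 then C.F x.1 y.1 z.1 w.1 else 0
  N_eq_T := by
    rintro ⟨x, p⟩ ⟨y, q⟩ ⟨z, r⟩
    have hinj : Function.Injective (fun m : ι => ((m, p + q) : ι × ℤ)) := by
      intro a b h
      exact congrArg Prod.fst h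
    simp only
    by_cases h : r = p + q
    · subst h
      rw [if_pos (by ring), ← C.N_eq_T]
      exact Finsupp.mapDomain_apply hinj (C.N x y) z
    · rw [if_neg (by intro h'; apply h; linarith)]
      apply Finsupp.mapDomain_of_notMem_range
      rintro ⟨j, hj⟩
      exact h (congrArg Prod.snd hj).symm
  bar_bar := by rintro ⟨x, p⟩; simp [C.bar_bar']
  deg_pos := fun x => C.degNat_pos _
  deg_bar := fun x => C.degNat_bar _
  gr_bar := fun x => rfl
  T_swap := by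
    rintro ⟨x, p⟩ ⟨y, q⟩ ⟨z, r⟩
    simp only
    rw [C.T_swap, add_comm p q]
  T_swap' := by
    rintro ⟨x, p⟩ ⟨y, q⟩ ⟨z, r⟩
    simp only
    rw [C.T_swap', add_right_comm p q]
  T_bar := by
    rintro ⟨x, p⟩ ⟨y, q⟩ ⟨z, r⟩
    simp only
    rw [C.T_bar]
    by_cases h : p + q + r = 0
    · rw [if_pos h, if_pos (by linarith)]
    · rw [if_neg h, if_neg (by intro h'; apply h; linarith)]
  T_one := by
    classical
    rintro ⟨x, p⟩ ⟨y, q⟩
    simp only [Prod.mk.injEq]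
    rw [C.T_one]
    by_cases h : C.bar x = y
    · by_cases h' : - p = q
      · rw [if_pos (by linarith), if_pos h, if_pos ⟨h, h'⟩]
      · rw [if_neg (by intro h2; apply h'; linarith), if_neg (by tauto)]
    · rw [if_neg h, ite_self, if_neg (fun h' => h h'.1)]
  T_gr := by
    rintro ⟨x, p⟩ ⟨y, q⟩ ⟨z, r⟩ h
    by_contra h'
    exact h (if_neg h')
  F_def := by
    rintro ⟨x, p⟩ ⟨y, q⟩ ⟨z, r⟩ ⟨w, s⟩
    simp only
    rw [Finsupp.sum_mapDomain_index (by simp) (by intros; ring)]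
    by_cases h : p + q + r + s = 0
    · simp only [if_pos h]; rfl
    · simp only [if_neg h]; simp [Finsupp.sum]
  F_swap := by
    rintro ⟨x, p⟩ ⟨y, q⟩ ⟨z, r⟩ ⟨w, s⟩
    simp only
    rw [C.F_swap]
    congr 1
    rw [eq_iff_iff]; constructor <;> intro h <;> linarith
  F_mid := by
    rintro ⟨x, p⟩ ⟨y, q⟩ ⟨z, r⟩ ⟨w, s⟩
    simp only
    rw [C.F_mid]
    congr 1
    rw [eq_iff_iff]; constructor <;> intro h <;> linarith
  F_last := by
    rintro ⟨x, p⟩ ⟨y, q⟩ ⟨z, r⟩ ⟨w, s⟩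
    simp only
    rw [C.F_last]
    congr 1
    rw [eq_iff_iff]; constructor <;> intro h <;> linarith
  deg_sum := by
    rintro ⟨x, p⟩ ⟨y, q⟩
    simp only
    rw [Finsupp.sum_mapDomain_index (by simp) (by intros; ring)]
    exact C.deg_sum x y
  deg_one := C.degNat_one
  gr_one := rfl
  deg_one_eq := by
    rintro ⟨x, p⟩ ⟨y, q⟩ hx hy h
    simp only at hx hy h
    rw [h1 x hx, h1 y hy, h]
  deg_ne_two := fun x => h2 _

end CNITA
end Pool.Agent.Helper64.Nita
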