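import Pool.Agent.Helper64.Nita.Run

namespace Pool.Agent.Helper64.Nita

/-- the state with only the element `1` -/
theorem s0_sat {κ : Type*} (R : FR κ) (a c : κ) (e : ℕ → κ) (h0 : e 0 = R.one) (h2 : e 2 = a)
    (h4 : e 4 = c) : Sat R a c s0 e := by
  have hlo : ∀ K, gt s0.lo K = if K = srt 0 0 0 then 1 else 0 := by
    intro K; show gt (st (mk 8) (srt 0 0 0) 1) K = _; rw [gt_st, gt_mk]
  have hhi : ∀ K, gt s0.hi K = 0 := fun K => gt_mk 8 K
  have hkn : ∀ K, gt s0.kn K = if K = prs 0 0 then 1 else 0 := by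
    intro K; show gt (st (mk 7) (prs 0 0) 1) K = _; rw [gt_st, gt_mk]
  have hn : s0.n = 1 := rfl
  have hz : ∀ i, i < s0.n → i = 0 := by intro i hi; rw [hn] at hi; omega
  have hl1 : s0.lov 0 0 0 = 1 := by unfold St.lov; rw [hlo, if_pos rfl]
  have hb0 : s0.bv 0 = 0 := by
    show Nat.pred (gt (st (mk 4) 0 1) 0) = 0
    rw [gt_st, if_pos rfl]; rfl
  have hT : R.T (e 0) (e 0) (e 0) = 1 := by rw [h0]; exact R.T_one_pos R.bar_one
  refine {
    pos := by rw [hn]; omega
    le := by rw [hn]; omega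
    e0 := h0
    e2 := h2
    e4 := h4
    inj := ?_
    dg := ?_
    gr := ?_
    br := ?_
    lo := ?_
    lb := ?_
    hi := ?_
    kn := ?_
    fl := ?_
    fh := ?_
    fk := ?_ }
  · intro i j hi hj _
    rw [hz i hi, hz j hj]
  · intro i hi
    rw [hz i hi, h0, R.deg_one]
    show gt (st (mk 4) 0 1) 0 = 1
    rw [gt_st, if_pos rfl]
  · intro i hi
    rw [hz i hi, h0, R.gr_one]
    show ((gt (st (mk 4) 0 32) 0 : ℕ) : ℤ) = 0 + 32
    rw [gt_st, if_pos rfl]; rfl
  · intro i hi
    rw [hz i hi, hb0, h0, R.bar_one]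
    exact ⟨by rw [hn]; omega, rfl⟩
  · intro i j k hi hj hk
    rw [hz i hi, hz j hj, hz k hk, hl1, hT]
  · intro i j k hi hj hk
    rw [hz i hi, hz j hj, hz k hk, hb0]
  · intro i j k hi hj hk hv
    rw [hhi] at hv; omega
  · intro i j hi hj _
    rw [hz i hi, hz j hj]
    refine ⟨?_, ?_⟩
    · intro k hk
      rw [hz k hk, hl1, hT]
    · intro x hx
      rw [R.N_eq_T, h0] at hx
      refine ⟨0, by rw [hn]; omega, ?_⟩
      by_cases h3 : R.bar R.one = R.bar x
      · rw [h0, ← R.bar_bar x, ← h3, R.bar_bar]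
      · exact absurd (R.T_one_zero h3) hx
  · intro i j k hi hj hk hnot
    rw [hlo, if_neg]
    intro h1
    have := srt_sym (fun i j k => (i < 1 ∧ j < 1 ∧ k < 1))
      (fun _ _ _ => by rw [eq_iff_iff]; tauto) (fun _ _ _ => by rw [eq_iff_iff]; tauto)
      hi hj hk (by omega) (by omega) (by omega) h1
    rw [eq_iff_iff] at this
    exact hnot (this.2 ⟨by omega, by omega, by omega⟩)
  · intro i j k _ _ _ _
    exact hhi _
  · intro i j hi hj hnot
    rw [hkn, if_neg]
    intro h1
    have := prs_sym (fun i j => (i < 1 ∧ j < 1))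
      (fun _ _ => by rw [eq_iff_iff]; tauto) hi hj (by omega) (by omega) h1
    rw [eq_iff_iff] at this
    exact hnot (this.2 ⟨by omega, by omega⟩)

/-- the initial state of the search -/
theorem initS_sat {κ : Type*} (R : FR κ) (o d a a' c c' s s' : κ)
    (ho : o = R.one) (hd : R.bar d = d) (ha : R.bar a = a') (hc : R.bar c = c') (hs : R.bar s = s')
    (dd : R.deg d = 8) (da : R.deg a = 3) (dc : R.deg c = 3) (ds : R.deg s = 6)
    (ga : R.gr a = 1) (gc : R.gr c = 2) (gs : R.gr s = 2)
    (T1 : 1 ≤ R.T a a' d) (T2 : 1 ≤ R.T a a c') (T3 : 1 ≤ R.T a a s') (T4 : R.T d d d = 3) :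
    ∃ e : ℕ → κ, Sat R a c initS e := by
  have dd' : R.deg a' = 3 := by rw [← ha, R.deg_bar, da]
  have dc' : R.deg c' = 3 := by rw [← hc, R.deg_bar, dc]
  have ga' : R.gr a' = -1 := by rw [← ha, R.gr_bar, ga]
  have gc' : R.gr c' = -2 := by rw [← hc, R.gr_bar, gc]
  have gs' : R.gr s' = -2 := by rw [← hs, R.gr_bar, gs]
  have gd : R.gr d = 0 := by have := R.gr_bar d; rw [hd] at this; linarith
  have go : R.gr o = 0 := by rw [ho]; exact R.gr_one
  have dgo : R.deg o = 1 := by rw [ho]; exact R.deg_one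
  have ds' : R.deg s' = 6 := by rw [← hs, R.deg_bar, ds]
  let e : ℕ → κ := fun n =>
    match n with
    | 0 => o | 1 => d | 2 => a | 3 => a' | 4 => c | 5 => c' | 6 => s | 7 => s' | _ => o
  refine ⟨e, ?_⟩
  have S0 : Sat R a c s0 e := s0_sat R a c e ho rfl rfl
  have S1 : Sat R a c (s0.addR 8) e := by
    refine S0.addR (by decide) (fun _ _ => rfl) rfl rfl ?_ hd dd
    intro i hi h1
    have hi' : i < 1 := hi
    interval_cases i
    have h2 : o = d := h1
    rw [h2] at dgo; omega
  have S2 : Sat R a c ((s0.addR 8).addN 3 33 31) e := by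
    refine S1.addN (by decide) (fun _ _ => rfl) rfl rfl ?_ ha ?_ da ?_ ?_
    · intro i hi h1
      have hi' : i < 2 := hi
      interval_cases i
      · have h2 : o = a := h1
        rw [h2] at dgo; omega
      · have h2 : d = a := h1
        rw [h2] at dd; omega
    · show a' ≠ a
      intro h1; rw [h1] at ga'; omega
    · show (33 : ℤ) = R.gr a + 32
      rw [ga]; rfl
    · show (31 : ℤ) = - R.gr a + 32
      rw [ga]; rfl
  have S3 : Sat R a c (((s0.addR 8).addN 3 33 31).addN 3 34 30) e := by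
    refine S2.addN (by decide) (fun _ _ => rfl) rfl rfl ?_ hc ?_ dc ?_ ?_
    · intro i hi h1
      have hi' : i < 4 := hi
      interval_cases i
      · have h2 : o = c := h1
        rw [h2] at go; omega
      · have h2 : d = c := h1
        rw [h2] at gd; omega
      · have h2 : a = c := h1
        rw [h2] at ga; omega
      · have h2 : a' = c := h1
        rw [h2] at ga'; omega
    · show c' ≠ c
      intro h1; rw [h1] at gc'; omega
    · show (34 : ℤ) = R.gr c + 32
      rw [gc]; rfl
    · show (30 : ℤ) = - R.gr c + 32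
      rw [gc]; rfl
  have S4 : Sat R a c ((((s0.addR 8).addN 3 33 31).addN 3 34 30).addN 6 34 30) e := by
    refine S3.addN (by decide) (fun _ _ => rfl) rfl rfl ?_ hs ?_ ds ?_ ?_
    · intro i hi h1
      have hi' : i < 6 := hi
      interval_cases i
      · have h2 : o = s := h1
        rw [h2] at go; omega
      · have h2 : d = s := h1
        rw [h2] at gd; omega
      · have h2 : a = s := h1
        rw [h2] at ga; omega
      · have h2 : a' = s := h1
        rw [h2] at ga'; omega
      · have h2 : c = s := h1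
        rw [h2] at dc; omega
      · have h2 : c' = s := h1
        rw [h2] at gc'; omega
    · show s' ≠ s
      intro h1; rw [h1] at gs'; omega
    · show (34 : ℤ) = R.gr s + 32
      rw [gs]; rfl
    · show (30 : ℤ) = - R.gr s + 32
      rw [gs]; rfl
  have n4 : ((((s0.addR 8).addN 3 33 31).addN 3 34 30).addN 6 34 30).n = 8 := rfl
  have S5 := S4.setLo (i := 2) (j := 3) (k := 1) (v := 1) (by rw [n4]; omega) (by rw [n4]; omega)
    (by rw [n4]; omega) T1
  have S6 := S5.setLo (i := 2) (j := 2) (k := 5) (v := 1) (by rw [setLo_n, n4]; omega)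
    (by rw [setLo_n, n4]; omega) (by rw [setLo_n, n4]; omega) T2
  have S7 := S6.setLo (i := 2) (j := 2) (k := 7) (v := 1) (by rw [setLo_n, setLo_n, n4]; omega)
    (by rw [setLo_n, setLo_n, n4]; omega) (by rw [setLo_n, setLo_n, n4]; omega) T3
  exact S7.setT (i := 1) (j := 1) (k := 1) (v := 3)
    (by rw [setLo_n, setLo_n, setLo_n, n4]; omega)
    (by rw [setLo_n, setLo_n, setLo_n, n4]; omega)
    (by rw [setLo_n, setLo_n, setLo_n, n4]; omega) T4

end Pool.Agent.Helper64.Nita
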