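import Pool.Agent.Helper64.Nita.Init
import Pool.Agent.Helper64.Nita.Cert

namespace Pool.Agent.Helper64.Nita

theorem no_sat {κ : Type*} {R : FR κ} {a c : κ} (H : ∀ u, R.deg u = 1 → R.T a c u = 0)
    (e : ℕ → κ) : ¬ Sat R a c initS e := by
  intro h
  have h1 := crt_ok
  cases hr : run (crt.map dc) initS [] [] with
  | none => rw [hr] at h1; simp [done] at h1
  | some O =>
    rw [hr] at h1
    cases O with
    | cons b r => simp [done] at h1
    | nil =>
      obtain ⟨S', hS', -⟩ := run_sound H _ _ _ _ _ hr ⟨initS, by simp, e, h⟩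
      simp at hS'

namespace CNITA
variable {ι A : Type*} [CommRing A] [Algebra ℂ A] (C : CNITA ι A)

open Classical in
/-- structure constants of a product of two basis elements given as a sum of two basis elements -/
theorem N_of_sum {x y u v : ι} (h : C.b x * C.b y = C.b u + C.b v) :
    C.N x y = Finsupp.single u 1 + Finsupp.single v 1 := by
  ext m
  have h1 : (C.N x y m : ℂ) = (((Finsupp.single u 1 + Finsupp.single v 1 : ι →₀ ℕ) m : ℕ) : ℂ) := by
    rw [← C.repr_mul', h, map_add, Finsupp.add_apply, Finsupp.add_apply, Module.Basis.repr_self,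
      Module.Basis.repr_self]
    simp only [Finsupp.single_apply]
    push_cast
    rfl
  exact_mod_cast h1

theorem sum_sq (x y : ι) :
    ((C.N x y).sum fun _ c => c * c) = C.F x y (C.bar x) (C.bar y) := by
  unfold F
  rw [Finsupp.sum, Finsupp.sum]
  refine Finset.sum_congr rfl fun m _ => ?_
  have : C.T m (C.bar x) (C.bar y) = C.N x y m := by
    rw [← C.T_bar, C.bar_bar', C.bar_bar', C.T_swap, C.T_swap', C.N_eq_T]
  rw [this]

theorem sq_mul (x y : ι) :
    C.sq (C.b x * C.b y) = (((C.N x y).sum fun _ c => c * c : ℕ) : ℝ) := by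
  have h : C.b.repr (C.b x * C.b y) =
      (C.N x y).mapRange (fun n : ℕ => (n : ℂ)) Nat.cast_zero := by
    ext m
    rw [C.repr_mul', Finsupp.mapRange_apply]
  unfold sq
  rw [h, Finsupp.sum_mapRange_index (by simp), Finsupp.sum, Finsupp.sum]
  push_cast
  refine Finset.sum_congr rfl fun m _ => ?_
  rw [Complex.norm_natCast]
  ring

/-- the case `(b_3 b_8, b_3 b_8) = 4` does not occur -/
theorem no_norm_four {b3 b8 c3 b6 : ι} (h3 : C.degNat b3 = 3)
    (h1 : ∀ i, C.degNat i = 1 → i = C.one) (h2 : ∀ i, C.degNat i ≠ 2)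
    (h8 : C.b b3 * C.b (C.bar b3) = 1 + C.b b8) (hc : C.degNat c3 = 3) (h6 : C.degNat b6 = 6)
    (hcb : c3 ≠ C.bar b3) (hsq : C.b b3 * C.b b3 = C.b c3 + C.b b6)
    (hn : C.sq (C.b b3 * C.b b8) = 4) : False := by
  classical
  have hb8 : C.bar b8 = b8 := by
    have h := congrArg C.conj h8
    rw [map_mul, map_add, map_one, C.conj_b, C.conj_b, C.conj_b, C.bar_bar', mul_comm, h8] at h
    exact C.b.injective (add_left_cancel h).symm
  have hd8 : C.degNat b8 = 8 := by
    have h := congrArg C.deg h8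
    rw [map_mul, map_add, map_one, C.deg_b, C.deg_b, C.deg_b, C.degNat_bar, h3] at h
    have h' : ((3 * 3 : ℕ) : ℂ) = ((1 + C.degNat b8 : ℕ) : ℂ) := by push_cast; exact_mod_cast h
    have h'' : 3 * 3 = 1 + C.degNat b8 := by exact_mod_cast h'
    omega
  have ho : C.degNat C.one = 1 := C.degNat_one
  have hob : C.one ≠ b8 := by intro h; rw [← h, ho] at hd8; omega
  have hN8 : C.N b3 (C.bar b3) = Finsupp.single C.one 1 + Finsupp.single b8 1 :=
    C.N_of_sum (by rw [h8, C.b_one])
  have hcb6 : c3 ≠ b6 := by intro h; rw [h, h6] at hc; omega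
  have hN3 : C.N b3 b3 = Finsupp.single c3 1 + Finsupp.single b6 1 := C.N_of_sum hsq
  -- the value of `T b8 b8 b8`
  have hT : C.T b8 b8 b8 = 3 := by
    rw [C.sq_mul] at hn
    have hn' : ((C.N b3 b8).sum fun _ c => c * c) = 4 := by exact_mod_cast hn
    rw [C.sum_sq, C.F_mid, hb8] at hn'
    unfold F at hn'
    rw [hN8, Finsupp.sum_add_index' (by simp) (by intros; ring),
      Finsupp.sum_single_index (by simp), Finsupp.sum_single_index (by simp), C.T_one,
      if_pos hb8] at hn'
    omega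
  let R := C.toFR h1 h2
  have H : ∀ u, R.deg u = 1 → R.T (b3, 1) (c3, 2) u = 0 := by
    rintro ⟨x, k⟩ hx
    have hx' : x = C.one := h1 x hx
    subst hx'
    show (if (1 : ℤ) + 2 + k = 0 then C.T b3 c3 C.one else 0) = 0
    have h0 : C.T b3 c3 C.one = 0 := by
      unfold T
      rw [C.bar_one', C.N_to_one', if_neg]
      intro h; exact hcb (by rw [← h, C.bar_bar'])
    rw [h0, ite_self]
  obtain ⟨e, he⟩ := initS_sat R (C.one, 0) (b8, 0) (b3, 1) (C.bar b3, -1) (c3, 2) (C.bar c3, -2)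
    (b6, 2) (C.bar b6, -2) rfl (by show (C.bar b8, -(0 : ℤ)) = (b8, 0); rw [hb8]; rfl) rfl rfl rfl
    hd8 h3 hc h6 rfl rfl rfl
    (by
      show 1 ≤ (if (1 : ℤ) + -1 + 0 = 0 then C.T b3 (C.bar b3) b8 else 0)
      rw [if_pos (by norm_num)]
      unfold T
      rw [hb8, hN8, Finsupp.add_apply]; simp)
    (by
      show 1 ≤ (if (1 : ℤ) + 1 + -2 = 0 then C.T b3 b3 (C.bar c3) else 0)
      rw [if_pos (by norm_num)]
      unfold T
      rw [C.bar_bar', hN3, Finsupp.add_apply]; simp)
    (by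
      show 1 ≤ (if (1 : ℤ) + 1 + -2 = 0 then C.T b3 b3 (C.bar b6) else 0)
      rw [if_pos (by norm_num)]
      unfold T
      rw [C.bar_bar', hN3, Finsupp.add_apply]; simp)
    (by
      show (if (0 : ℤ) + 0 + 0 = 0 then C.T b8 b8 b8 else 0) = 3
      rw [if_pos (by norm_num)]
      exact hT)
  exact no_sat H e he

end CNITA
end Pool.Agent.Helper64.Nita
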