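import Pool.Agent.Helper64.Nita.Sat

namespace Pool.Agent.Helper64.Nita

theorem arr_cases {κ : Type*} (R : FR κ) (e : ℕ → κ) (n t x y z w : ℕ)
    (hx : x < n) (hy : y < n) (hz : z < n) (hw : w < n) : ∃ p q r s : ℕ,
    (∀ {α : Type} (f : ℕ → ℕ → ℕ → ℕ → α), arr t x y z w f = f p q r s) ∧
    p < n ∧ q < n ∧ r < n ∧ s < n ∧
    R.F (e p) (e q) (e r) (e s) = R.F (e x) (e y) (e z) (e w) := by
  by_cases h0 : Nat.beq t 0 = true
  · exact ⟨x, y, z, w, fun f => by simp only [arr, h0, cond_true], hx, hy, hz, hw, rfl⟩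
  by_cases h1 : Nat.beq t 1 = true
  · exact ⟨z, w, x, y, fun f => by simp only [arr, h0, h1, cond_true, cond_false], hz, hw, hx, hy,
      R.F_swap _ _ _ _⟩
  by_cases h2 : Nat.beq t 2 = true
  · exact ⟨x, z, y, w, fun f => by simp only [arr, h0, h1, h2, cond_true, cond_false], hx, hz, hy, hw,
      R.F_mid _ _ _ _⟩
  by_cases h3 : Nat.beq t 3 = true
  · exact ⟨y, w, x, z, fun f => by simp only [arr, h0, h1, h2, h3, cond_true, cond_false], hy, hw, hx, hz,
      by rw [R.F_swap, R.F_mid]⟩
  by_cases h4 : Nat.beq t 4 = true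
  · exact ⟨x, w, y, z, fun f => by simp only [arr, h0, h1, h2, h3, h4, cond_true, cond_false],
      hx, hw, hy, hz, by rw [R.F_mid, R.F_last]⟩
  · exact ⟨y, z, x, w, fun f => by simp only [arr, h0, h1, h2, h3, h4, cond_false],
      hy, hz, hx, hw, by rw [R.F_swap, R.F_mid, R.F_last]⟩

namespace Sat
variable {κ : Type*} {R : FR κ} {a c : κ} {S : St} {e : ℕ → κ} (h : Sat R a c S e)
include h

omit h in
theorem F_lin (x y z w : κ) : R.F x y z w = lin (fun m => R.T m z w) (R.N x y) := by
  rw [R.F_def]; rfl

theorem exact {x y : ℕ} (hx : x < S.n) (hy : y < S.n) {L : List ℕ} (hL : ∀ m ∈ L, m < S.n)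
    (hn : L.Nodup) (hd : S.dsum x y L = S.dv x * S.dv y) :
    R.N (e x) (e y) = vc e (S.cf x y) L := by
  obtain ⟨f, hf, hs⟩ := h.splitcf hx hy hL hn
  have h0 : f = 0 := lin_eq_zero R.deg_pos (by omega)
  rw [hf, h0, zero_add]

theorem up_spec {x y z w : ℕ} (hx : x < S.n) (hy : y < S.n) (hz : z < S.n) (hw : w < S.n)
    {L : List ℕ} (hu : S.upOk x y z w L = true) :
    R.F (e x) (e y) (e z) (e w) ≤ S.usum x y z w L := by
  simp only [St.upOk, Bool.and_eq_true, beq_iff] at hu
  obtain ⟨h1, h2, h3⟩ := hu
  obtain ⟨hL, hn⟩ := okL_spec h1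
  rw [F_lin, h.exact hx hy hL hn h2, lin_vc]
  exact h.usum_ge x y hz hw hL h3

theorem low1 {x y z w m : ℕ} (hx : x < S.n) (hy : y < S.n) (hz : z < S.n) (hw : w < S.n)
    (hm : m < S.n) {L : List ℕ} (hL : ∀ m ∈ L, m < S.n) (hn : L.Nodup) (hnin : m ∉ L) :
    S.lsum x y z w L + S.cf x y m * R.T (e m) (e z) (e w) ≤ R.F (e x) (e y) (e z) (e w) := by
  have hL' : ∀ m' ∈ m :: L, m' < S.n := by
    intro m' hm'
    rcases List.mem_cons.1 hm' with rfl | hm'
    · exact hm
    · exact hL _ hm'
  obtain ⟨f, hf, -⟩ := h.splitcf hx hy hL' (List.nodup_cons.2 ⟨hnin, hn⟩)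
  rw [F_lin, hf, lin_add, lin_vc, List.map_cons, List.sum_cons]
  have := h.lsum_le x y hz hw hL
  omega

theorem low0 {x y z w : ℕ} (hx : x < S.n) (hy : y < S.n) (hz : z < S.n) (hw : w < S.n)
    {L : List ℕ} (hL : ∀ m ∈ L, m < S.n) (hn : L.Nodup) :
    S.lsum x y z w L ≤ R.F (e x) (e y) (e z) (e w) := by
  obtain ⟨f, hf, -⟩ := h.splitcf hx hy hL hn
  rw [F_lin, hf, lin_add, lin_vc]
  have := h.lsum_le x y hz hw hL
  omega

omit h in
theorem F_norm (x y : κ) : R.F x y (R.bar x) (R.bar y) = lin (fun m => R.N x y m) (R.N x y) := by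
  rw [R.F_def]
  unfold lin
  congr 1
  ext m k
  show k * R.T m (R.bar x) (R.bar y) = k * R.N x y m
  rw [R.N_eq_T x y m, ← R.T_bar m (R.bar x) (R.bar y), R.bar_bar, R.bar_bar, R.T_swap, R.T_swap']

theorem nrm_spec {p q r s : ℕ} (hp : p < S.n) (hq : q < S.n) (hnr : S.nrm p q r s = true) :
    R.F (e p) (e q) (e r) (e s) = lin (fun m => R.N (e p) (e q) m) (R.N (e p) (e q)) := by
  simp only [St.nrm, Bool.or_eq_true, Bool.and_eq_true, beq_iff] at hnr
  rw [← F_norm, h.bare hp, h.bare hq]
  rcases hnr with ⟨rfl, rfl⟩ | ⟨rfl, rfl⟩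
  · rfl
  · exact R.F_last _ _ _ _

theorem qsum_le {p q : ℕ} (hp : p < S.n) (hq : q < S.n) {L : List ℕ} (hL : ∀ m ∈ L, m < S.n) :
    S.qsum p q L ≤ (L.map fun m => S.cf p q m * R.N (e p) (e q) (e m)).sum := by
  rw [qsum_eq]
  induction L with
  | nil => simp
  | cons m L ih =>
    simp only [List.map_cons, List.sum_cons]
    exact Nat.add_le_add (Nat.mul_le_mul_left _ (h.cf_le hp hq (hL m (by simp))))
      (ih (fun m' hm' => hL m' (by simp [hm'])))

theorem low_spec {p q r s pend : ℕ} (hp : p < S.n) (hq : q < S.n) (hr : r < S.n) (hs : s < S.n)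
    {L : List ℕ} (hl : S.lowOk p q r s pend L = true) :
    S.low p q r s pend L ≤ R.F (e p) (e q) (e r) (e s) := by
  simp only [St.lowOk, Bool.and_eq_true, Bool.or_eq_true, beq_iff, blt_iff] at hl
  obtain ⟨h1, h2⟩ := hl
  obtain ⟨hL, hn⟩ := okL_spec h1
  unfold St.low
  cases hb : Nat.beq pend 0 with
  | true => simp only [cond_true]; exact h.low0 hp hq hr hs hL hn
  | false =>
    simp only [cond_false]
    rcases h2 with h2 | ⟨h2, h3⟩
    · rw [(beq_iff _ _).2 h2] at hb; exact absurd hb (by simp)
    · rw [h.nrm_spec hp hq h2]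
      obtain ⟨f, hf, hsum⟩ := h.splitcf hp hq hL hn
      have h4 : f ≠ 0 := by
        rintro rfl
        rw [lin_zero] at hsum
        have h3' : S.dsum p q L < S.dv p * S.dv q := h3
        omega
      obtain ⟨z, hz⟩ := Finsupp.ne_iff.1 h4
      have h5 : lin (fun m => R.N (e p) (e q) m) (R.N (e p) (e q)) =
          lin (fun m => R.N (e p) (e q) m) f + lin (fun m => R.N (e p) (e q) m) (vc e (S.cf p q) L) := by
        conv_lhs => rw [show lin (fun m => R.N (e p) (e q) m) (R.N (e p) (e q)) =
          lin (fun m => R.N (e p) (e q) m) (f + vc e (S.cf p q) L) from by rw [← hf]]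
        exact lin_add _ _ _
      rw [h5, lin_vc]
      have h6 := h.qsum_le hp hq hL
      have h7 := le_lin (fun m => R.N (e p) (e q) m) f z
      have h8 : f z ≤ R.N (e p) (e q) z := by rw [hf, Finsupp.add_apply]; omega
      have h9 : 1 ≤ f z * R.N (e p) (e q) z := by
        have : 1 ≤ f z := Nat.pos_of_ne_zero hz
        nlinarith
      omega

/-! ### updates -/

theorem setHi {i j k v : ℕ} (hi : i < S.n) (hj : j < S.n) (hk : k < S.n)
    (hv : R.T (e i) (e j) (e k) ≤ v) : Sat R a c (S.setHi i j k v) e where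
  pos := h.pos
  le := h.le
  e0 := h.e0
  e2 := h.e2
  e4 := h.e4
  inj := h.inj
  dg := h.dg
  gr := h.gr
  br := h.br
  lo := h.lo
  lb := h.lb
  kn := h.kn
  fl := h.fl
  fk := h.fk
  hi := by
    have hle := h.le
    intro i' j' k' hi' hj' hk' hge
    change i' < S.n at hi'
    change j' < S.n at hj'
    change k' < S.n at hk'
    have hsym := fun {i j k i' j' k' : ℕ} => srt_sym (fun i j k => R.T (e i) (e j) (e k))
      (fun _ _ _ => R.T_swap _ _ _) (fun _ _ _ => R.T_swap' _ _ _) (i := i) (j := j) (k := k)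
      (i' := i') (j' := j') (k' := k')
    simp only [St.setHi, gt_st] at hge ⊢
    split_ifs at hge ⊢ with h1 h2
    · have := hsym (by omega) (by omega) (by omega) (by have := h.bvlt hi; omega)
        (by have := h.bvlt hj; omega) (by have := h.bvlt hk; omega) h1
      rw [this, ← h.bare hi, ← h.bare hj, ← h.bare hk, R.T_bar]
      exact hv
    · have := hsym (by omega) (by omega) (by omega) (by omega) (by omega) (by omega) h2
      rw [this]; exact hv
    · exact h.hi i' j' k' hi' hj' hk' hge
  fh := by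
    have hle := h.le
    intro i' j' k' hi' hj' hk' hn
    change ¬(i' < S.n ∧ j' < S.n ∧ k' < S.n) at hn
    have hsym := fun {i j k i' j' k' : ℕ} => srt_sym (fun i j k => (i < S.n ∧ j < S.n ∧ k < S.n))
      (fun _ _ _ => by rw [eq_iff_iff]; tauto) (fun _ _ _ => by rw [eq_iff_iff]; tauto)
      (i := i) (j := j) (k := k) (i' := i') (j' := j') (k' := k')
    simp only [St.setHi, gt_st]
    rw [if_neg, if_neg]
    · exact h.fh i' j' k' hi' hj' hk' hn
    · intro h1
      have := hsym hi' hj' hk' (by omega) (by omega) (by omega) h1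
      simp only [eq_iff_iff] at this
      exact hn (this.2 ⟨hi, hj, hk⟩)
    · intro h1
      have b1 := h.bvlt hi
      have b2 := h.bvlt hj
      have b3 := h.bvlt hk
      have := hsym hi' hj' hk' (by omega) (by omega) (by omega) h1
      simp only [eq_iff_iff] at this
      exact hn (this.2 ⟨b1, b2, b3⟩)

theorem setLo {i j k v : ℕ} (hi : i < S.n) (hj : j < S.n) (hk : k < S.n)
    (hv : v ≤ R.T (e i) (e j) (e k)) : Sat R a c (S.setLo i j k v) e := by
  unfold St.setLo
  cases hb : (Nat.ble (S.lov i j k) v && Nat.ble (S.lov (S.bv i) (S.bv j) (S.bv k)) v) with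
  | false => exact h
  | true =>
    simp only [Bool.and_eq_true, ble_iff] at hb
    simp only [cond_true]
    have hle := h.le
    have b1 := h.bvlt hi
    have b2 := h.bvlt hj
    have b3 := h.bvlt hk
    -- lookups
    have hlk : ∀ K, gt (st (st S.lo (srt i j k) v) (srt (S.bv i) (S.bv j) (S.bv k)) v) K =
        if K = srt (S.bv i) (S.bv j) (S.bv k) then v else if K = srt i j k then v else gt S.lo K := by
      intro K; rw [gt_st, gt_st]
    have hmono : ∀ K, gt S.lo K ≤
        gt (st (st S.lo (srt i j k) v) (srt (S.bv i) (S.bv j) (S.bv k)) v) K := by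
      intro K
      rw [hlk]
      split_ifs with h1 h2
      · rw [h1]; exact hb.2
      · rw [h2]; exact hb.1
      · exact le_rfl
    exact {
      pos := h.pos, le := h.le, e0 := h.e0, e2 := h.e2, e4 := h.e4, inj := h.inj, dg := h.dg
      gr := h.gr, br := h.br, hi := h.hi, fh := h.fh, fk := h.fk
      lo := by
        intro i' j' k' hi' hj' hk'
        change i' < S.n at hi'
        change j' < S.n at hj'
        change k' < S.n at hk'
        have hsym := fun {i j k i' j' k' : ℕ} => srt_sym (fun i j k => R.T (e i) (e j) (e k))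
          (fun _ _ _ => R.T_swap _ _ _) (fun _ _ _ => R.T_swap' _ _ _) (i := i) (j := j) (k := k)
          (i' := i') (j' := j') (k' := k')
        simp only [St.lov, hlk]
        split_ifs with h1 h2
        · have := hsym (by omega) (by omega) (by omega) (by omega) (by omega) (by omega) h1
          rw [this, ← h.bare hi, ← h.bare hj, ← h.bare hk, R.T_bar]
          exact hv
        · have := hsym (by omega) (by omega) (by omega) (by omega) (by omega) (by omega) h2
          rw [this]; exact hv
        · exact h.lo i' j' k' hi' hj' hk'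
      lb := by
        intro i' j' k' hi' hj' hk'
        change i' < S.n at hi'
        change j' < S.n at hj'
        change k' < S.n at hk'
        have c1 := h.bvlt hi'
        have c2 := h.bvlt hj'
        have c3 := h.bvlt hk'
        have hsym := fun {i j k i' j' k' : ℕ} => srt_sym
          (fun i j k => srt (S.bv i) (S.bv j) (S.bv k))
          (fun _ _ _ => srt_comm1 _ _ _) (fun _ _ _ => srt_comm2 _ _ _) (i := i) (j := j) (k := k)
          (i' := i') (j' := j') (k' := k')
        have f1 : srt (S.bv i') (S.bv j') (S.bv k') = srt (S.bv i) (S.bv j) (S.bv k) ↔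
            srt i' j' k' = srt i j k := by
          constructor
          · intro h1
            have := hsym (by omega) (by omega) (by omega) (by omega) (by omega) (by omega) h1
            simpa only [h.bvbv hi', h.bvbv hj', h.bvbv hk', h.bvbv hi, h.bvbv hj, h.bvbv hk] using this
          · intro h1
            exact hsym (by omega) (by omega) (by omega) (by omega) (by omega) (by omega) h1
        have f2 : srt (S.bv i') (S.bv j') (S.bv k') = srt i j k ↔
            srt i' j' k' = srt (S.bv i) (S.bv j) (S.bv k) := by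
          constructor
          · intro h1
            have := hsym (by omega) (by omega) (by omega) (by omega) (by omega) (by omega) h1
            simpa only [h.bvbv hi', h.bvbv hj', h.bvbv hk'] using this
          · intro h1
            have := hsym (by omega) (by omega) (by omega) (by omega) (by omega) (by omega) h1
            simpa only [h.bvbv hi, h.bvbv hj, h.bvbv hk] using this
        have f3 := h.lb i' j' k' hi' hj' hk'
        simp only [St.lov] at f3
        change gt _ (srt (S.bv i') (S.bv j') (S.bv k')) = gt _ (srt i' j' k')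
        rw [hlk, hlk]
        by_cases g1 : srt i' j' k' = srt i j k
        · rw [if_pos (f1.2 g1)]
          split_ifs <;> rfl
        · by_cases g2 : srt i' j' k' = srt (S.bv i) (S.bv j) (S.bv k)
          · rw [if_pos g2, if_neg (fun h' => g1 (f1.1 h')), if_pos (f2.2 g2)]
          · rw [if_neg g2, if_neg g1, if_neg (fun h' => g1 (f1.1 h')),
              if_neg (fun h' => g2 (f2.1 h')), f3]
      kn := by
        intro i' j' hi' hj' hk'
        obtain ⟨g1, g2⟩ := h.kn i' j' hi' hj' hk'
        exact ⟨fun k' hk'' => le_trans (g1 k' hk'') (hmono _), g2⟩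
      fl := by
        intro i' j' k' hi' hj' hk' hn
        change ¬(i' < S.n ∧ j' < S.n ∧ k' < S.n) at hn
        have hsym := fun {i j k i' j' k' : ℕ} => srt_sym (fun i j k => (i < S.n ∧ j < S.n ∧ k < S.n))
          (fun _ _ _ => by rw [eq_iff_iff]; tauto) (fun _ _ _ => by rw [eq_iff_iff]; tauto)
          (i := i) (j := j) (k := k) (i' := i') (j' := j') (k' := k')
        change gt _ (srt i' j' k') = 0
        rw [hlk, if_neg, if_neg]
        · exact h.fl i' j' k' hi' hj' hk' hn
        · intro h1
          have := hsym hi' hj' hk' (by omega) (by omega) (by omega) h1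
          simp only [eq_iff_iff] at this
          exact hn (this.2 ⟨hi, hj, hk⟩)
        · intro h1
          have := hsym hi' hj' hk' (by omega) (by omega) (by omega) h1
          simp only [eq_iff_iff] at this
          exact hn (this.2 ⟨b1, b2, b3⟩) }

end Sat
end Pool.Agent.Helper64.Nita
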