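import Pool.Agent.Helper64.Nita.Step

namespace Pool.Agent.Helper64.Nita

theorem guard_spec {b : Bool} {l l' : List St} (h : guard' b l = some l') : b = true ∧ l' = l := by
  unfold guard' at h
  cases b with
  | false => simp at h
  | true => simp at h; exact ⟨rfl, h.symm⟩

namespace Sat
variable {κ : Type*} {R : FR κ} {a c : κ} {S : St} {e : ℕ → κ} (h : Sat R a c S e)
include h

theorem extract {i j x y : ℕ} {LA : List ℕ} (hi : i < S.n) (hj : j < S.n)
    (hxy : (x = i ∧ y = j) ∨ (x = j ∧ y = i))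
    (hu : S.upOk x (S.bv x) y (S.bv y) LA = true) (hex : S.exact i j (rng S.n) = true)
    (hd : S.dsum i j (rng S.n) < S.dv i * S.dv j) (hn : S.n + 2 ≤ 64) (h5 : 5 ≤ S.n)
    (h32 : 32 ≤ S.gv i + S.gv j) (h96 : S.gv i + S.gv j ≤ 96) :
    ∃ S' ∈ kids S i j (S.dv i * S.dv j - S.dsum i j (rng S.n))
      (S.usum x (S.bv x) y (S.bv y) LA - S.qsum i j (rng S.n)), ∃ e' : ℕ → κ, Sat R a c S' e' := by
  classical
  have hL : ∀ m ∈ rng S.n, m < S.n := fun m hm => mem_rng.1 hm
  have hx : x < S.n := by rcases hxy with ⟨rfl, rfl⟩ | ⟨rfl, rfl⟩ <;> assumption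
  have hy : y < S.n := by rcases hxy with ⟨rfl, rfl⟩ | ⟨rfl, rfl⟩ <;> assumption
  obtain ⟨f, hf, hsum⟩ := h.splitcf hi hj hL (nodup_rng _)
  -- exactness
  have hexact : ∀ m, m < S.n → R.N (e i) (e j) (e m) = S.cf i j m := by
    intro m hm
    have hb := h.bvlt hm
    have h1 := exact_spec hex (S.bv m) (mem_rng.2 hb)
    have h2 := h.hiv_spec hi hj hb (by omega)
    rw [h1, Nat.pred_succ] at h2
    rw [h.N_e hm]
    exact le_antisymm h2 (h.lo _ _ _ hi hj hb)
  have hvc : ∀ m, m < S.n → vc e (S.cf i j) (rng S.n) (e m) = S.cf i j m := fun m hm =>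
    vc_apply_mem e _ _ (nodup_rng _) (h.injL hL) (mem_rng.2 hm)
  have hout : ∀ m, m < S.n → f (e m) = 0 := by
    intro m hm
    have h1 := hexact m hm
    rw [hf, Finsupp.add_apply, hvc m hm] at h1
    omega
  have hfN : ∀ z, f z ≠ 0 → R.N (e i) (e j) z = f z := by
    intro z hz
    rw [hf, Finsupp.add_apply, vc_apply_notin, add_zero]
    intro m hm h1
    exact hz (by rw [← h1]; exact hout m (hL m hm))
  have hf0 : f ≠ 0 := by
    rintro rfl
    rw [lin_zero] at hsum
    omega
  -- the norm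
  have hq : lin (fun m => f m) f ≤ S.usum x (S.bv x) y (S.bv y) LA - S.qsum i j (rng S.n) := by
    have h1 := h.up_spec hx (h.bvlt hx) hy (h.bvlt hy) hu
    have h2 : R.F (e x) (e (S.bv x)) (e y) (e (S.bv y)) =
        lin (fun m => R.N (e i) (e j) m) (R.N (e i) (e j)) := by
      rw [R.F_mid, ← h.bare hx, ← h.bare hy, F_norm]
      rcases hxy with ⟨rfl, rfl⟩ | ⟨rfl, rfl⟩
      · rfl
      · have : R.N (e y) (e x) = R.N (e x) (e y) := by
          ext z; exact R.N_swap _ _ _
        rw [this]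
    have h3 : lin (fun m => R.N (e i) (e j) m) (R.N (e i) (e j)) =
        lin (fun m => R.N (e i) (e j) m) f +
          lin (fun m => R.N (e i) (e j) m) (vc e (S.cf i j) (rng S.n)) := by
      conv_lhs => rw [show lin (fun m => R.N (e i) (e j) m) (R.N (e i) (e j)) =
        lin (fun m => R.N (e i) (e j) m) (f + vc e (S.cf i j) (rng S.n)) from by rw [← hf]]
      exact lin_add _ _ _
    have h4 : S.qsum i j (rng S.n) ≤
        lin (fun m => R.N (e i) (e j) m) (vc e (S.cf i j) (rng S.n)) := by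
      rw [lin_vc]; exact h.qsum_le hi hj hL
    have h6 : lin (fun m => f m) f ≤ lin (fun m => R.N (e i) (e j) m) f :=
      lin_mono f (fun z hz => (hfN z hz).ge)
    omega
  -- the element of maximal degree
  have hne : f.support.Nonempty := by
    rw [Finset.nonempty_iff_ne_empty]
    intro h1
    exact hf0 (Finsupp.support_eq_empty.1 h1)
  obtain ⟨z, hz, hmax⟩ := Finset.exists_max_image f.support R.deg hne
  have hz0 : f z ≠ 0 := Finsupp.mem_support_iff.1 hz
  have hznot : ∀ k, k < S.n → e k ≠ z := by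
    intro k hk h1
    exact hz0 (by rw [← h1]; exact hout k hk)
  set r := S.dv i * S.dv j - S.dsum i j (rng S.n) with hr
  set q := S.usum x (S.bv x) y (S.bv y) LA - S.qsum i j (rng S.n) with hq'
  have hlin : lin R.deg f = r := by omega
  have hmd : f z * R.deg z ≤ r := by rw [← hlin]; exact le_lin _ _ _
  have hmm : f z * f z ≤ q := le_trans (le_lin (fun m => f m) f z) hq
  have hrr : r ≤ R.deg z * (f z + q - f z * f z) := by
    have h1 : lin R.deg f ≤ R.deg z * ∑ w ∈ f.support, f w := by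
      unfold lin Finsupp.sum
      rw [Finset.mul_sum]
      exact Finset.sum_le_sum fun w hw => by
        show f w * R.deg w ≤ R.deg z * f w
        rw [mul_comm (R.deg z)]; exact Nat.mul_le_mul_left _ (hmax w hw)
    have h2 : ∑ w ∈ f.support, f w = f z + ∑ w ∈ f.support.erase z, f w :=
      (Finset.add_sum_erase _ _ hz).symm
    have h3 : lin (fun m => f m) f = f z * f z + ∑ w ∈ f.support.erase z, f w * f w := by
      unfold lin Finsupp.sum
      exact (Finset.add_sum_erase _ _ hz).symm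
    have h4 : ∑ w ∈ f.support.erase z, f w ≤ ∑ w ∈ f.support.erase z, f w * f w :=
      Finset.sum_le_sum fun w _ => Nat.le_mul_self _
    have h6 : ∑ w ∈ f.support, f w ≤ f z + q - f z * f z := by omega
    rw [← hlin]
    exact le_trans h1 (Nat.mul_le_mul_left _ h6)
  obtain ⟨S', hS', e', he'⟩ := h.kid_sat (m := f z) (d := R.deg z) hi hj h5 hn hznot rfl
    (hfN z hz0) hz0 h32 h96
  refine ⟨S', ?_, e', he'⟩
  have hdp := R.deg_pos z
  have hd2 := R.deg_ne_two z
  have hfz : 1 ≤ f z := Nat.pos_of_ne_zero hz0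
  have hrd : R.deg z ≤ r := le_trans (Nat.le_mul_of_pos_left _ hfz) hmd
  unfold kids
  by_cases hd1 : R.deg z = 1
  · have hle : ∀ w, f w ≤ R.N (e i) (e j) w := by
      intro w; rw [hf, Finsupp.add_apply]; omega
    have hall : ∀ w, f w ≠ 0 → w = z := by
      intro w hw
      have h1 := hmax w (Finsupp.mem_support_iff.2 hw)
      have h2 := R.deg_pos w
      have h3 : R.deg w = 1 := by omega
      obtain ⟨-, -, g1⟩ := R.deg1_spec h3 (le_trans (Nat.pos_of_ne_zero hw) (hle w))
      obtain ⟨-, -, g2⟩ := R.deg1_spec hd1 (le_trans hfz (hle z))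
      exact R.deg_one_eq w z h3 hd1 (by rw [g1, g2])
    have hfz1 : f z = 1 := by
      obtain ⟨-, g1, -⟩ := R.deg1_spec hd1 (le_trans hfz (hle z))
      rw [hfN z hz0] at g1; exact g1
    have hfs : f = Finsupp.single z 1 := by
      ext w
      by_cases hw : w = z
      · subst hw; rw [hfz1]; simp
      · rw [Finsupp.single_eq_of_ne hw]
        by_contra hw'
        exact hw (hall w hw')
    have hr1 : r = 1 := by rw [← hlin, hfs, lin_single, hd1]
    rw [(beq_iff r 1).2 hr1]
    simp only [cond_true]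
    rw [hfz1, hd1] at hS'
    exact hS'
  · have hd3 : 3 ≤ R.deg z := by omega
    have hb : Nat.beq r 1 = false := by
      cases hb : Nat.beq r 1 with
      | false => rfl
      | true => rw [beq_iff] at hb; omega
    rw [hb]
    simp only [cond_false]
    refine mem_kD (d := R.deg z) ?_ _ _ hd3 ?_
    · refine mem_kM ⟨hmd, hmm, hrr⟩ hS' _ _ hfz ?_
      have : f z ≤ f z * f z := Nat.le_mul_self _
      omega
    · have : Nat.sub r 2 = r - 2 := rfl
      omega

theorem step_sound (H : ∀ u, R.deg u = 1 → R.T a c u = 0) {i : I} {l : List St}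
    (hs : step i S = some l) : ∃ S' ∈ l, ∃ e' : ℕ → κ, Sat R a c S' e' := by
  cases i with
  | sH x y z w t LA LB m v =>
    obtain ⟨hb, rfl⟩ := guard_spec hs
    simp only [Bool.and_eq_true, blt_iff] at hb
    obtain ⟨h1, hm, h2, h3⟩ := hb
    obtain ⟨hx, hy, hz, hw⟩ := lt4_spec h1
    obtain ⟨p, q, r, s, harr, hp, hq, hr, hs', hF⟩ := arr_cases R e S.n t x y z w hx hy hz hw
    rw [harr] at h3 ⊢
    simp only [Bool.and_eq_true, blt_iff] at h3
    obtain ⟨g1, g2, g3⟩ := h3
    obtain ⟨gL, gn⟩ := okL_spec g1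
    refine ⟨_, List.mem_singleton.2 rfl, e, h.setHi hm hr hs' ?_⟩
    have k1 := h.up_spec hx hy hz hw h2
    have k2 := h.low1 hp hq hr hs' hm gL gn (nin_spec.1 g2)
    rw [hF] at k2
    by_contra hcon
    have k3 : v + 1 ≤ R.T (e m) (e r) (e s) := by omega
    have k4 : S.cf p q m * (v + 1) ≤ S.cf p q m * R.T (e m) (e r) (e s) := Nat.mul_le_mul_left _ k3
    have k5 : S.usum x y z w LA < S.lsum p q r s LB + S.cf p q m * (v + 1) := g3
    omega
  | sQ x y z w t LA LB k v =>
    obtain ⟨hb, rfl⟩ := guard_spec hs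
    simp only [Bool.and_eq_true, blt_iff] at hb
    obtain ⟨h1, hk, h2, h3⟩ := hb
    obtain ⟨hx, hy, hz, hw⟩ := lt4_spec h1
    obtain ⟨p, q, r, s, harr, hp, hq, hr, hs', hF⟩ := arr_cases R e S.n t x y z w hx hy hz hw
    rw [harr] at h3 ⊢
    simp only [Bool.and_eq_true, blt_iff] at h3
    obtain ⟨g0, g1, g2, g3⟩ := h3
    obtain ⟨gL, gn⟩ := okL_spec g1
    refine ⟨_, List.mem_singleton.2 rfl, e, h.setHi hp hq hk ?_⟩
    have k1 := h.up_spec hx hy hz hw h2
    rw [← hF, h.nrm_spec hp hq g0] at k1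
    have hbk := h.bvlt hk
    have gL' : ∀ m ∈ S.bv k :: LB, m < S.n := by
      intro m' hm'
      rcases List.mem_cons.1 hm' with rfl | hm'
      · exact hbk
      · exact gL _ hm'
    obtain ⟨f, hf⟩ := h.split (x := p) (y := q) (fun m => R.N (e p) (e q) (e m)) gL'
      (List.nodup_cons.2 ⟨nin_spec.1 g2, gn⟩) (fun m _ => le_rfl)
    have k2 : lin (fun m => R.N (e p) (e q) m) (R.N (e p) (e q)) =
        lin (fun m => R.N (e p) (e q) m) f +
          lin (fun m => R.N (e p) (e q) m) (vc e (fun m => R.N (e p) (e q) (e m)) (S.bv k :: LB)) := by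
      conv_lhs => rw [show lin (fun m => R.N (e p) (e q) m) (R.N (e p) (e q)) =
        lin (fun m => R.N (e p) (e q) m) (f + vc e (fun m => R.N (e p) (e q) (e m)) (S.bv k :: LB))
          from by rw [← hf]]
      exact lin_add _ _ _
    rw [lin_vc, List.map_cons, List.sum_cons] at k2
    have k3 : R.N (e p) (e q) (e (S.bv k)) = R.T (e p) (e q) (e k) := by
      rw [h.N_e hbk, h.bvbv hk]
    rw [k3] at k2
    have k4 : S.qsum p q LB ≤ (LB.map fun m => R.N (e p) (e q) (e m) * R.N (e p) (e q) (e m)).sum := by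
      refine le_trans (h.qsum_le hp hq gL) ?_
      apply List.sum_le_sum
      intro m hm
      exact Nat.mul_le_mul_right _ (h.cf_le hp hq (gL m hm))
    by_contra hcon
    have k5 : v + 1 ≤ R.T (e p) (e q) (e k) := by omega
    have k6 : (v + 1) * (v + 1) ≤ R.T (e p) (e q) (e k) * R.T (e p) (e q) (e k) :=
      Nat.mul_le_mul k5 k5
    have k7 : S.usum x y z w LA < S.qsum p q LB + (v + 1) * (v + 1) := g3
    omega
  | sL x y z w t pend LA LB m v =>
    obtain ⟨hb, rfl⟩ := guard_spec hs
    simp only [Bool.and_eq_true, blt_iff, ble_iff] at hb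
    obtain ⟨h1, hm, hv, h2, h3⟩ := hb
    obtain ⟨hx, hy, hz, hw⟩ := lt4_spec h1
    obtain ⟨p, q, r, s, harr, hp, hq, hr, hs', hF⟩ := arr_cases R e S.n t x y z w hx hy hz hw
    rw [harr] at h3 ⊢
    simp only [Bool.and_eq_true, blt_iff, beq_iff] at h3
    obtain ⟨g1, g2, g3, g4, g5⟩ := h3
    obtain ⟨gL, gn⟩ := okL_spec g1
    refine ⟨_, List.mem_singleton.2 rfl, e, h.setLo hm hr hs' ?_⟩
    have k1 := h.low_spec hx hy hz hw h2
    rw [← hF] at k1
    have gL' : ∀ m' ∈ m :: LB, m' < S.n := by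
      intro m' hm'
      rcases List.mem_cons.1 hm' with rfl | hm'
      · exact hm
      · exact gL _ hm'
    have k2 := h.exact hp hq gL' (List.nodup_cons.2 ⟨nin_spec.1 g2, gn⟩) (by
      show S.cf p q m * S.dv m + S.dsum p q LB = _
      have : S.dsum p q LB + S.cf p q m * S.dv m = S.dv p * S.dv q := g4
      omega)
    rw [F_lin, k2, lin_vc, List.map_cons, List.sum_cons] at k1
    have k3 := h.usum_ge p q hr hs' gL g3
    by_contra hcon
    have k4 : R.T (e m) (e r) (e s) ≤ v - 1 := by omega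
    have k5 : S.cf p q m * R.T (e m) (e r) (e s) ≤ S.cf p q m * (v - 1) := Nat.mul_le_mul_left _ k4
    have k6 : S.usum p q r s LB + S.cf p q m * (v - 1) < S.low x y z w pend LA := g5
    omega
  | sD i j k v L =>
    obtain ⟨hb, rfl⟩ := guard_spec hs
    simp only [Bool.and_eq_true, blt_iff] at hb
    obtain ⟨h1, g1, g2, g3⟩ := hb
    obtain ⟨hi, hj, hk, -⟩ := lt4_spec h1
    obtain ⟨gL, gn⟩ := okL_spec g1
    refine ⟨_, List.mem_singleton.2 rfl, e, h.setHi hi hj hk ?_⟩
    have hbk := h.bvlt hk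
    have gL' : ∀ m ∈ S.bv k :: L, m < S.n := by
      intro m' hm'
      rcases List.mem_cons.1 hm' with rfl | hm'
      · exact hbk
      · exact gL _ hm'
    obtain ⟨f, hf⟩ := h.split (x := i) (y := j) (fun m => R.N (e i) (e j) (e m)) gL'
      (List.nodup_cons.2 ⟨nin_spec.1 g2, gn⟩) (fun m _ => le_rfl)
    have k1 := R.deg_sum (e i) (e j)
    change lin R.deg (R.N (e i) (e j)) = _ at k1
    rw [hf, lin_add, lin_vc, List.map_cons, List.sum_cons] at k1
    have k3 : R.N (e i) (e j) (e (S.bv k)) = R.T (e i) (e j) (e k) := by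
      rw [h.N_e hbk, h.bvbv hk]
    have k3' : R.deg (e (S.bv k)) = R.deg (e k) := by rw [← h.bare hk, R.deg_bar]
    rw [k3, k3'] at k1
    have k4 : S.dsum i j L ≤ (L.map fun m => R.N (e i) (e j) (e m) * R.deg (e m)).sum := by
      rw [h.dsum_eq i j gL]
      apply List.sum_le_sum
      intro m hm
      exact Nat.mul_le_mul_right _ (h.cf_le hi hj (gL m hm))
    by_contra hcon
    have k5 : v + 1 ≤ R.T (e i) (e j) (e k) := by omega
    have k6 : (v + 1) * R.deg (e k) ≤ R.T (e i) (e j) (e k) * R.deg (e k) :=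
      Nat.mul_le_mul_right _ k5
    have k7 : S.dv i * S.dv j < S.dsum i j L + (v + 1) * S.dv k := g3
    rw [h.dg i hi, h.dg j hj, h.dg k hk] at k7
    omega
  | sK i j L =>
    obtain ⟨hb, rfl⟩ := guard_spec hs
    simp only [Bool.and_eq_true, beq_iff] at hb
    obtain ⟨h1, g1, g2⟩ := hb
    obtain ⟨hi, hj, -, -⟩ := lt4_spec h1
    obtain ⟨gL, gn⟩ := okL_spec g1
    have k1 := h.exact hi hj gL gn g2
    refine ⟨_, List.mem_singleton.2 rfl, e, h.setKn hi hj ?_ ?_⟩
    · intro k hk
      have hbk := h.bvlt hk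
      have k3 : R.N (e i) (e j) (e (S.bv k)) = R.T (e i) (e j) (e k) := by
        rw [h.N_e hbk, h.bvbv hk]
      rw [← k3, k1]
      by_cases hmem : S.bv k ∈ L
      · rw [vc_apply_mem e _ _ gn (h.injL gL) hmem]
        show S.lov i j (S.bv (S.bv k)) ≤ _
        rw [h.bvbv hk]
      · rw [vc_apply_notin]
        · exact Nat.zero_le _
        · intro m hm h2
          exact hmem (by rw [← h.inj m _ (gL m hm) hbk h2]; exact hm)
    · intro x hx
      by_contra hcon
      push Not at hcon
      apply hx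
      rw [k1]
      exact vc_apply_notin _ _ _ _ (fun m hm h2 => hcon m (gL m hm) h2.symm)
  | cF x y z w t pend LA LB =>
    obtain ⟨hb, rfl⟩ := guard_spec hs
    simp only [Bool.and_eq_true] at hb
    obtain ⟨h1, h2, h3⟩ := hb
    obtain ⟨hx, hy, hz, hw⟩ := lt4_spec h1
    obtain ⟨p, q, r, s, harr, hp, hq, hr, hs', hF⟩ := arr_cases R e S.n t x y z w hx hy hz hw
    rw [harr] at h3
    simp only [Bool.and_eq_true, blt_iff] at h3
    obtain ⟨g1, g2⟩ := h3
    have k1 := h.up_spec hx hy hz hw h2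
    have k2 := h.low_spec hp hq hr hs' g1
    rw [hF] at k2
    exfalso; omega
  | cD i j L =>
    obtain ⟨hb, rfl⟩ := guard_spec hs
    simp only [Bool.and_eq_true, Bool.or_eq_true, blt_iff, beq_iff] at hb
    obtain ⟨h1, g1, g2⟩ := hb
    obtain ⟨hi, hj, -, -⟩ := lt4_spec h1
    obtain ⟨gL, gn⟩ := okL_spec g1
    obtain ⟨f, hf, hsum⟩ := h.splitcf hi hj gL gn
    have hle : ∀ z, f z ≤ R.N (e i) (e j) z := by
      intro z; rw [hf, Finsupp.add_apply]; omega
    exfalso
    rcases g2 with g2 | g2 | ⟨g2, g3⟩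
    · have g2' : S.dv i * S.dv j < S.dsum i j L := g2
      omega
    · have g2' : S.dsum i j L + 2 = S.dv i * S.dv j := g2
      have hf0 : f ≠ 0 := by rintro rfl; rw [lin_zero] at hsum; omega
      obtain ⟨u, -, -, hu⟩ := R.excess hle hf0 (by omega)
      omega
    · have g2' : S.dsum i j L + 1 = S.dv i * S.dv j := g2
      have hf0 : f ≠ 0 := by rintro rfl; rw [lin_zero] at hsum; omega
      obtain ⟨u, hu1, hu2, -⟩ := R.excess hle hf0 (by omega)
      obtain ⟨m1, m2, m3⟩ := R.deg1_spec hu1 (le_trans hu2.ge (hle u))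
      rcases g3 with g3 | ⟨g3, g4⟩
      · rw [Bool.not_eq_true'] at g3
        have : Nat.beq (S.dv i) (S.dv j) = true := by
          rw [beq_iff, h.dg i hi, h.dg j hj]; exact m1
        rw [this] at g3; exact absurd g3 (by simp)
      · have g3' : S.gv i + S.gv j = 64 := g3
        have q1 := h.gr i hi
        have q2 := h.gr j hj
        have q3 : ((S.gv i + S.gv j : ℕ) : ℤ) = 64 := by rw [g3']; rfl
        push_cast at q3
        have hgu : R.gr u = 0 := by rw [m3]; linarith
        have huone : u = R.one := R.deg_one_eq _ _ hu1 R.deg_one (by rw [hgu, R.gr_one])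
        have hbij : R.bar (e i) = e j := by
          by_contra hne
          have : R.N (e i) (e j) u = 0 := by
            rw [R.N_eq_T, huone, R.bar_one, R.T_swap', R.T_swap]
            exact R.T_one_zero hne
          omega
        have hbv : S.bv i = j := h.inj _ _ (h.bvlt hi) hj (by rw [← h.bare hi, hbij])
        rcases g4 with g4 | ⟨g4, g5⟩
        · rw [Bool.not_eq_true', (beq_iff _ _).2 hbv] at g4
          exact absurd g4 (by simp)
        · have h0L : (0 : ℕ) ∈ L := by
            by_contra h0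
            rw [nin_spec.2 h0] at g5; exact absurd g5 (by simp)
          have hv0 := vc_apply_mem e (S.cf i j) L gn (h.injL gL) h0L
          rw [h.e0, ← huone] at hv0
          have : R.N (e i) (e j) u = f u + vc e (S.cf i j) L u := by rw [hf, Finsupp.add_apply]
          have g4' : 1 ≤ S.cf i j 0 := (ble_iff _ _).1 g4
          omega
  | cT i j k =>
    obtain ⟨hb, rfl⟩ := guard_spec hs
    simp only [Bool.and_eq_true, blt_iff, ble_iff] at hb
    obtain ⟨h1, g1, g2⟩ := hb
    obtain ⟨hi, hj, hk, -⟩ := lt4_spec h1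
    have k1 := h.hi i j k hi hj hk g1
    have k2 := h.lo i j k hi hj hk
    exfalso; omega
  | sU i j k L =>
    obtain ⟨hb, rfl⟩ := guard_spec hs
    simp only [Bool.and_eq_true, beq_iff] at hb
    obtain ⟨h1, g1, g2, g3, g4, g5⟩ := hb
    obtain ⟨hi, hj, hk, -⟩ := lt4_spec h1
    obtain ⟨gL, gn⟩ := okL_spec g1
    obtain ⟨f, hf, hsum⟩ := h.splitcf hi hj gL gn
    have hle : ∀ z, f z ≤ R.N (e i) (e j) z := by
      intro z; rw [hf, Finsupp.add_apply]; omega
    have g5' : S.dsum i j L + 1 = S.dv i * S.dv j := g5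
    have hf0 : f ≠ 0 := by rintro rfl; rw [lin_zero] at hsum; omega
    obtain ⟨u, hu1, hu2, -⟩ := R.excess hle hf0 (by omega)
    obtain ⟨m1, m2, m3⟩ := R.deg1_spec hu1 (le_trans hu2.ge (hle u))
    have g4' : S.gv k + 32 = S.gv i + S.gv j := g4
    have q1 := h.gr i hi
    have q2 := h.gr j hj
    have q4 := h.gr k hk
    have q3 : ((S.gv k + 32 : ℕ) : ℤ) = ((S.gv i + S.gv j : ℕ) : ℤ) := by rw [g4']
    push_cast at q3
    have huk : u = e k := R.deg_one_eq _ _ hu1 (by rw [← h.dg k hk]; exact g3)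
      (by rw [m3]; linarith)
    refine ⟨_, List.mem_singleton.2 rfl, e, h.setLo hi hj (h.bvlt hk) ?_⟩
    rw [← h.N_e hk, ← huk, m2]
  | sN k =>
    obtain ⟨hb, rfl⟩ := guard_spec hs
    simp only [Bool.and_eq_true, beq_iff, blt_iff, ble_iff] at hb
    obtain ⟨h5, hk, h1⟩ := hb
    refine ⟨_, List.mem_singleton.2 rfl, e, h.setHi (by omega) (by omega) hk ?_⟩
    rw [h.e2, h.e4, H _ (by rw [← h.dg k hk]; exact h1)]
  | cN i j L =>
    obtain ⟨hb, rfl⟩ := guard_spec hs
    simp only [Bool.and_eq_true, Bool.or_eq_true, beq_iff, ble_iff] at hb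
    obtain ⟨h5, hij, h1, g1, g2⟩ := hb
    obtain ⟨hi, hj, -, -⟩ := lt4_spec h1
    obtain ⟨gL, gn⟩ := okL_spec g1
    obtain ⟨f, hf, hsum⟩ := h.splitcf hi hj gL gn
    have hle : ∀ z, f z ≤ R.N (e i) (e j) z := by
      intro z; rw [hf, Finsupp.add_apply]; omega
    have g2' : S.dsum i j L + 1 = S.dv i * S.dv j := g2
    have hf0 : f ≠ 0 := by rintro rfl; rw [lin_zero] at hsum; omega
    obtain ⟨u, hu1, hu2, -⟩ := R.excess hle hf0 (by omega)
    have hNu := le_trans hu2.ge (hle u)
    exfalso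
    rcases hij with ⟨rfl, rfl⟩ | ⟨rfl, rfl⟩
    · rw [R.N_eq_T, h.e2, h.e4, H _ (by rw [R.deg_bar]; exact hu1)] at hNu
      omega
    · rw [← h.bare (show 2 < S.n by omega), ← h.bare (show 4 < S.n by omega), R.N_bar, R.N_eq_T,
        R.bar_bar, h.e2, h.e4, H _ hu1] at hNu
      omega
  | br i j k v =>
    obtain ⟨hb, rfl⟩ := guard_spec hs
    obtain ⟨hi, hj, hk, -⟩ := lt4_spec hb
    by_cases hv : R.T (e i) (e j) (e k) ≤ v
    · exact ⟨_, by simp, e, h.setHi hi hj hk hv⟩
    · exact ⟨S.setLo i j k (Nat.succ v), by simp, e, h.setLo hi hj hk (by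
        have : v + 1 ≤ R.T (e i) (e j) (e k) := by omega
        exact this)⟩
  | ex i j x y LA =>
    obtain ⟨hb, rfl⟩ := guard_spec hs
    simp only [Bool.and_eq_true, Bool.or_eq_true, beq_iff, blt_iff, ble_iff] at hb
    obtain ⟨h1, hxy, hu, hex, hd, hn, h5, h32, h96⟩ := hb
    obtain ⟨hi, hj, -, -⟩ := lt4_spec h1
    exact h.extract hi hj hxy hu hex hd hn h5 h32 h96
  | hole => simp [step] at hs

end Sat

/-- the part of `run` for instructions other than `hole` -/
theorem run_cons (i : I) (hi : i ≠ .hole) (cs : List I) (S : St) (stk out : List St) :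
    run (i :: cs) S stk out =
      match step i S with
      | none => none
      | some l =>
        match l ++ stk with
        | [] => some out
        | a :: r => run cs a r out := by
  cases i <;> first | rfl | exact absurd rfl hi

theorem run_sound {κ : Type*} {R : FR κ} {a c : κ} (H : ∀ u, R.deg u = 1 → R.T a c u = 0)
    (cs : List I) : ∀ (S : St) (stk out O : List St), run cs S stk out = some O →
    (∃ S' ∈ (S :: stk) ++ out, ∃ e : ℕ → κ, Sat R a c S' e) → ∃ S' ∈ O, ∃ e : ℕ → κ, Sat R a c S' e := by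
  induction cs with
  | nil => intro S stk out O h; simp [run] at h
  | cons i cs ih =>
    intro S stk out O h hs
    by_cases hi : i = .hole
    · subst hi
      cases stk with
      | nil =>
        simp only [run, Option.some.injEq] at h
        subst h
        obtain ⟨S', hS', e, he⟩ := hs
        exact ⟨S', by simpa using hS', e, he⟩
      | cons b r =>
        simp only [run] at h
        apply ih _ _ _ _ h
        obtain ⟨S', hS', e, he⟩ := hs
        refine ⟨S', ?_, e, he⟩
        simp only [List.cons_append, List.mem_cons, List.mem_append] at hS' ⊢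
        tauto
    · rw [run_cons i hi] at h
      cases hst : step i S with
      | none => rw [hst] at h; simp at h
      | some l =>
        rw [hst] at h
        simp only at h
        obtain ⟨S', hS', e, he⟩ := hs
        have key : ∃ S'' ∈ (l ++ stk) ++ out, ∃ e : ℕ → κ, Sat R a c S'' e := by
          simp only [List.cons_append, List.mem_cons, List.mem_append] at hS'
          rcases hS' with rfl | hS' | hS'
          · obtain ⟨S'', hS'', e', he'⟩ := he.step_sound H hst
            exact ⟨S'', by simp [hS''], e', he'⟩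
          · exact ⟨S', by simp [hS'], e, he⟩
          · exact ⟨S', by simp [hS'], e, he⟩
        cases hls : l ++ stk with
        | nil =>
          rw [hls] at h key
          simp only [Option.some.injEq] at h
          subst h
          simpa using key
        | cons b r =>
          rw [hls] at h key
          exact ih _ _ _ _ h key

end Pool.Agent.Helper64.Nita
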