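import Mathlib
import Pool.Agent.Helper64.Nita.Chk

namespace Pool.Agent.Helper64.Nita

theorem beq_iff (a b : ℕ) : Nat.beq a b = true ↔ a = b :=
  ⟨Nat.eq_of_beq_eq_true, fun h => by subst h; exact Nat.beq_refl a⟩

theorem ble_iff (a b : ℕ) : Nat.ble a b = true ↔ a ≤ b := by
  constructor
  · exact Nat.le_of_ble_eq_true
  · exact Nat.ble_eq_true_of_le

theorem blt_iff (a b : ℕ) : Nat.blt a b = true ↔ a < b := by
  unfold Nat.blt; rw [ble_iff]; exact Iff.rfl

theorem Tr.get_set_same (t : Tr) : ∀ h k v, (t.set h k v).get h k = v := by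
  induction t with
  | lf b => intro h k v; simp [Tr.set, Tr.get, Bk.get]
  | nd l r hl hr =>
    intro h k v
    unfold Tr.set
    cases hb : Nat.beq (Nat.mod h 2) 0 with
    | true => simp only [cond_true, Tr.get, hb]; exact hl _ _ _
    | false => simp only [cond_false, Tr.get, hb]; exact hr _ _ _

theorem Tr.get_set_ne (t : Tr) : ∀ h h' k k' v, k' ≠ k → (t.set h k v).get h' k' = t.get h' k' := by
  induction t with
  | lf b =>
    intro h h' k k' v hk
    simp only [Tr.set, Tr.get, Bk.get]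
    have : Nat.beq k k' = false := by
      cases hb : Nat.beq k k' with
      | false => rfl
      | true => exact absurd ((beq_iff _ _).1 hb).symm hk
    rw [this]; rfl
  | nd l r hl hr =>
    intro h h' k k' v hk
    unfold Tr.set
    cases hb : Nat.beq (Nat.mod h 2) 0 with
    | true =>
      simp only [cond_true, Tr.get]
      cases Nat.beq (Nat.mod h' 2) 0 with
      | true => simp only [cond_true]; exact hl _ _ _ _ _ hk
      | false => rfl
    | false =>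
      simp only [cond_false, Tr.get]
      cases Nat.beq (Nat.mod h' 2) 0 with
      | true => rfl
      | false => simp only [cond_false]; exact hr _ _ _ _ _ hk

theorem gt_st (t : Tr) (k v k' : ℕ) : gt (st t k v) k' = if k' = k then v else gt t k' := by
  unfold gt st
  by_cases h : k' = k
  · subst h; rw [if_pos rfl]; exact t.get_set_same _ _ _
  · rw [if_neg h]; exact t.get_set_ne _ _ _ _ _ h

theorem gt_mk (n : ℕ) : ∀ k, gt (mk n) k = 0 := by
  have h : ∀ n h k, (mk n).get h k = 0 := by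
    intro n
    induction n with
    | zero => intro h k; rfl
    | succ n ih =>
      intro h k
      simp only [mk, Tr.get]
      cases Nat.beq (Nat.mod h 2) 0 <;> exact ih _ _
  intro k; exact h _ _ _

theorem enc_inj {a b c a' b' c' : ℕ} (hb : b < 64) (hc : c < 64) (hb' : b' < 64) (hc' : c' < 64)
    (h : enc a b c = enc a' b' c') : a = a' ∧ b = b' ∧ c = c' := by
  have h' : (a * 64 + b) * 64 + c = (a' * 64 + b') * 64 + c' := h
  omega

theorem srt_spec (i j k : ℕ) : ∃ a b c, srt i j k = enc a b c ∧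
    ((a = i ∧ b = j ∧ c = k) ∨ (a = i ∧ b = k ∧ c = j) ∨ (a = k ∧ b = i ∧ c = j) ∨
     (a = j ∧ b = i ∧ c = k) ∨ (a = j ∧ b = k ∧ c = i) ∨ (a = k ∧ b = j ∧ c = i)) := by
  unfold srt
  cases Nat.ble i j <;> cases Nat.ble j k <;> cases Nat.ble i k <;>
    simp only [cond_true, cond_false] <;>
    first
      | exact ⟨i, j, k, rfl, by simp⟩
      | exact ⟨i, k, j, rfl, by simp⟩
      | exact ⟨k, i, j, rfl, by simp⟩
      | exact ⟨j, i, k, rfl, by simp⟩
      | exact ⟨j, k, i, rfl, by simp⟩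
      | exact ⟨k, j, i, rfl, by simp⟩

theorem srt_sym {α : Type*} (f : ℕ → ℕ → ℕ → α) (h1 : ∀ i j k, f i j k = f j i k)
    (h2 : ∀ i j k, f i j k = f i k j) {i j k i' j' k' : ℕ} (hi : i < 64) (hj : j < 64) (hk : k < 64)
    (hi' : i' < 64) (hj' : j' < 64) (hk' : k' < 64) (h : srt i j k = srt i' j' k') :
    f i j k = f i' j' k' := by
  obtain ⟨a, b, c, e1, h3⟩ := srt_spec i j k
  obtain ⟨a', b', c', e2, h4⟩ := srt_spec i' j' k'
  rw [e1, e2] at h
  have key : ∀ i j k a b c : ℕ, ((a = i ∧ b = j ∧ c = k) ∨ (a = i ∧ b = k ∧ c = j) ∨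
      (a = k ∧ b = i ∧ c = j) ∨
      (a = j ∧ b = i ∧ c = k) ∨ (a = j ∧ b = k ∧ c = i) ∨ (a = k ∧ b = j ∧ c = i)) →
      f a b c = f i j k := by
    intro i j k a b c h
    rcases h with ⟨rfl, rfl, rfl⟩ | ⟨rfl, rfl, rfl⟩ | ⟨rfl, rfl, rfl⟩ | ⟨rfl, rfl, rfl⟩ |
      ⟨rfl, rfl, rfl⟩ | ⟨rfl, rfl, rfl⟩
    · rfl
    · exact h2 _ _ _
    · rw [h1, h2]
    · exact h1 _ _ _
    · rw [h2, h1]
    · rw [h1, h2, h1]
  have hb : ∀ i j k a b c : ℕ, i < 64 → j < 64 → k < 64 →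
      ((a = i ∧ b = j ∧ c = k) ∨ (a = i ∧ b = k ∧ c = j) ∨ (a = k ∧ b = i ∧ c = j) ∨
      (a = j ∧ b = i ∧ c = k) ∨ (a = j ∧ b = k ∧ c = i) ∨ (a = k ∧ b = j ∧ c = i)) →
      b < 64 ∧ c < 64 := by
    intro i j k a b c x y z h
    omega
  obtain ⟨ba, ca⟩ := hb i j k a b c hi hj hk h3
  obtain ⟨bb, cb⟩ := hb i' j' k' a' b' c' hi' hj' hk' h4
  obtain ⟨r1, r2, r3⟩ := enc_inj ba ca bb cb h
  subst r1 r2 r3
  rw [← key i j k a b c h3, key i' j' k' a b c h4]

theorem prs_sym {α : Type*} (f : ℕ → ℕ → α) (h1 : ∀ i j, f i j = f j i) {i j i' j' : ℕ}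
    (hi : i < 64) (hj : j < 64) (hi' : i' < 64) (hj' : j' < 64) (h : prs i j = prs i' j') :
    f i j = f i' j' := by
  have e : ∀ i j : ℕ, ∃ a b, prs i j = a * 64 + b ∧ ((a = i ∧ b = j) ∨ (a = j ∧ b = i)) := by
    intro i j
    unfold prs
    cases Nat.ble i j
    · exact ⟨j, i, rfl, Or.inr ⟨rfl, rfl⟩⟩
    · exact ⟨i, j, rfl, Or.inl ⟨rfl, rfl⟩⟩
  obtain ⟨a, b, e1, h3⟩ := e i j
  obtain ⟨a', b', e2, h4⟩ := e i' j'
  rw [e1, e2] at h
  have r1 : a = a' ∧ b = b' := by omega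
  obtain ⟨rfl, rfl⟩ := r1
  rcases h3 with ⟨rfl, rfl⟩ | ⟨rfl, rfl⟩ <;> rcases h4 with ⟨rfl, rfl⟩ | ⟨rfl, rfl⟩
  · rfl
  · exact h1 _ _
  · exact h1 _ _
  · rfl

end Pool.Agent.Helper64.Nita
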