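import Pool.Agent.Helper64.Nita.FR
import Pool.Agent.Helper64.Nita.Tab

namespace Pool.Agent.Helper64.Nita

/-! ### finitely supported functions and lists -/

section lin
variable {κ : Type*}

/-- linear extension -/
noncomputable def lin (g : κ → ℕ) (f : κ →₀ ℕ) : ℕ := f.sum fun m c => c * g m

theorem lin_add (g : κ → ℕ) (f f' : κ →₀ ℕ) : lin g (f + f') = lin g f + lin g f' := by
  unfold lin
  exact Finsupp.sum_add_index' (by simp) (by intros; ring)

theorem lin_zero (g : κ → ℕ) : lin g 0 = 0 := by simp [lin]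

theorem lin_single (g : κ → ℕ) (x : κ) (c : ℕ) : lin g (Finsupp.single x c) = c * g x := by
  unfold lin
  rw [Finsupp.sum_single_index (by simp)]

theorem lin_eq_zero {g : κ → ℕ} (hg : ∀ x, 0 < g x) {f : κ →₀ ℕ} (h : lin g f = 0) : f = 0 := by
  ext x
  by_contra hx
  have h1 : f x * g x ≤ lin g f := by
    unfold lin Finsupp.sum
    exact Finset.single_le_sum (f := fun m => f m * g m) (fun _ _ => Nat.zero_le _)
      (Finsupp.mem_support_iff.2 hx)
  have h2 : 0 < f x * g x := Nat.mul_pos (Nat.pos_of_ne_zero hx) (hg x)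
  omega

theorem le_lin (g : κ → ℕ) (f : κ →₀ ℕ) (x : κ) : f x * g x ≤ lin g f := by
  by_cases hx : f x = 0
  · rw [hx]; simp
  · unfold lin Finsupp.sum
    exact Finset.single_le_sum (f := fun m => f m * g m) (fun _ _ => Nat.zero_le _)
      (Finsupp.mem_support_iff.2 hx)

theorem lin_mono {g g' : κ → ℕ} (f : κ →₀ ℕ) (h : ∀ x, f x ≠ 0 → g x ≤ g' x) : lin g f ≤ lin g' f := by
  unfold lin Finsupp.sum
  exact Finset.sum_le_sum fun x hx => Nat.mul_le_mul_left _ (h x (Finsupp.mem_support_iff.1 hx))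

/-- the vector with coefficients `w` at the elements with indices in `L` -/
noncomputable def vc (e : ℕ → κ) (w : ℕ → ℕ) (L : List ℕ) : κ →₀ ℕ :=
  (L.map fun m => Finsupp.single (e m) (w m)).sum

theorem lin_vc (e : ℕ → κ) (w : ℕ → ℕ) (g : κ → ℕ) (L : List ℕ) :
    lin g (vc e w L) = (L.map fun m => w m * g (e m)).sum := by
  induction L with
  | nil => simp [vc, lin_zero]
  | cons m L ih =>
    have : vc e w (m :: L) = Finsupp.single (e m) (w m) + vc e w L := by simp [vc]
    rw [this, lin_add, lin_single, ih]; simp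

theorem vc_apply_notin (e : ℕ → κ) (w : ℕ → ℕ) (L : List ℕ) (z : κ) (h : ∀ m ∈ L, e m ≠ z) :
    vc e w L z = 0 := by
  induction L with
  | nil => simp [vc]
  | cons m L ih =>
    have h1 : vc e w (m :: L) = Finsupp.single (e m) (w m) + vc e w L := by simp [vc]
    rw [h1, Finsupp.add_apply, Finsupp.single_eq_of_ne (fun h' => h m (by simp) h'.symm), ih]
    intro m' hm'
    exact h m' (by simp [hm'])

theorem vc_le (e : ℕ → κ) (w : ℕ → ℕ) (f : κ →₀ ℕ) (L : List ℕ) (hL : L.Nodup)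
    (hinj : ∀ i ∈ L, ∀ j ∈ L, e i = e j → i = j) (hw : ∀ m ∈ L, w m ≤ f (e m)) : vc e w L ≤ f := by
  induction L with
  | nil => intro z; simp [vc]
  | cons m L ih =>
    intro z
    have h1 : vc e w (m :: L) = Finsupp.single (e m) (w m) + vc e w L := by simp [vc]
    rw [h1, Finsupp.add_apply]
    rw [List.nodup_cons] at hL
    by_cases hz : e m = z
    · subst hz
      rw [vc_apply_notin e w L (e m) (fun m' hm' h' => hL.1 (by
        rw [hinj m (by simp) m' (by simp [hm']) h'.symm]; exact hm'))]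
      simp only [Finsupp.single_eq_same, add_zero]
      exact hw m (by simp)
    · rw [Finsupp.single_eq_of_ne (fun h' => hz h'.symm), zero_add]
      exact ih hL.2 (fun i hi j hj => hinj i (by simp [hi]) j (by simp [hj]))
        (fun m' hm' => hw m' (by simp [hm'])) z

theorem vc_exists (e : ℕ → κ) (w : ℕ → ℕ) (f : κ →₀ ℕ) (L : List ℕ) (hL : L.Nodup)
    (hinj : ∀ i ∈ L, ∀ j ∈ L, e i = e j → i = j) (hw : ∀ m ∈ L, w m ≤ f (e m)) :
    ∃ h : κ →₀ ℕ, f = h + vc e w L :=
  ⟨f - vc e w L, (tsub_add_cancel_of_le (vc_le e w f L hL hinj hw)).symm⟩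

end lin

theorem inc_spec (n : ℕ) (L : List ℕ) : ∀ p, inc n p L = true →
    (∀ m ∈ L, p ≤ m ∧ m < n) ∧ L.Nodup := by
  induction L with
  | nil => intro p _; simp
  | cons m L ih =>
    intro p h
    simp only [inc, Bool.and_eq_true, ble_iff, blt_iff] at h
    obtain ⟨h1, h2, h3⟩ := h
    obtain ⟨h4, h5⟩ := ih _ h3
    refine ⟨?_, ?_⟩
    · intro m' hm'
      rcases List.mem_cons.1 hm' with rfl | hm'
      · exact ⟨h1, h2⟩
      · exact ⟨le_trans h1 (le_trans (Nat.le_succ _) (h4 m' hm').1), (h4 m' hm').2⟩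
    · rw [List.nodup_cons]
      refine ⟨fun h' => ?_, h5⟩
      have := (h4 m h').1
      omega

theorem okL_spec {n : ℕ} {L : List ℕ} (h : okL n L = true) : (∀ m ∈ L, m < n) ∧ L.Nodup :=
  ⟨fun m hm => ((inc_spec n L 0 h).1 m hm).2, (inc_spec n L 0 h).2⟩

theorem nin_spec {a : ℕ} {L : List ℕ} : nin a L = true ↔ a ∉ L := by
  induction L with
  | nil => simp [nin]
  | cons m L ih =>
    simp only [nin, Bool.and_eq_true, Bool.not_eq_true', List.mem_cons, not_or, ih]
    constructor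
    · rintro ⟨h1, h2⟩
      refine ⟨fun h3 => ?_, h2⟩
      rw [(beq_iff a m).2 h3] at h1; exact absurd h1 (by simp)
    · rintro ⟨h1, h2⟩
      refine ⟨?_, h2⟩
      cases hb : Nat.beq a m with
      | false => rfl
      | true => exact absurd ((beq_iff _ _).1 hb) h1

theorem lt4_spec {n x y z w : ℕ} (h : lt4 n x y z w = true) : x < n ∧ y < n ∧ z < n ∧ w < n := by
  simpa only [lt4, Bool.and_eq_true, blt_iff] using h

theorem enc_eq (a b c : ℕ) : enc a b c = (a * 64 + b) * 64 + c := rfl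

theorem ble_decide (a b : ℕ) : Nat.ble a b = decide (a ≤ b) := by
  cases h : Nat.ble a b with
  | true => exact (decide_eq_true ((ble_iff _ _).1 h)).symm
  | false =>
    symm; apply decide_eq_false
    intro h'; rw [(ble_iff _ _).2 h'] at h; exact absurd h (by simp)

theorem srt_comm1 (i j k : ℕ) : srt i j k = srt j i k := by
  simp only [srt, ble_decide, Bool.cond_decide, enc_eq]
  split_ifs <;> omega

theorem srt_comm2 (i j k : ℕ) : srt i j k = srt i k j := by
  simp only [srt, ble_decide, Bool.cond_decide, enc_eq]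
  split_ifs <;> omega

theorem prs_comm (i j : ℕ) : prs i j = prs j i := by
  have h : ∀ i j, prs i j = if i ≤ j then i * 64 + j else j * 64 + i := by
    intro i j
    simp only [prs, ble_decide, Bool.cond_decide]
    rfl
  rw [h, h]
  split_ifs <;> omega

theorem lov_comm1 (S : St) (i j k : ℕ) : S.lov i j k = S.lov j i k := by
  unfold St.lov; rw [srt_comm1]

theorem lov_comm2 (S : St) (i j k : ℕ) : S.lov i j k = S.lov i k j := by
  unfold St.lov; rw [srt_comm2]

theorem knv_comm (S : St) (i j : ℕ) : S.knv i j = S.knv j i := by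
  unfold St.knv; rw [prs_comm]

/-- the state `S` describes the elements `e i`, `i < S.n`, of the fusion data `R` -/
structure Sat {κ : Type*} (R : FR κ) (a c : κ) (S : St) (e : ℕ → κ) : Prop where
  pos : 0 < S.n
  le : S.n ≤ 64
  e0 : e 0 = R.one
  e2 : e 2 = a
  e4 : e 4 = c
  inj : ∀ i j, i < S.n → j < S.n → e i = e j → i = j
  dg : ∀ i, i < S.n → S.dv i = R.deg (e i)
  gr : ∀ i, i < S.n → (S.gv i : ℤ) = R.gr (e i) + 32
  br : ∀ i, i < S.n → S.bv i < S.n ∧ R.bar (e i) = e (S.bv i)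
  lo : ∀ i j k, i < S.n → j < S.n → k < S.n → S.lov i j k ≤ R.T (e i) (e j) (e k)
  lb : ∀ i j k, i < S.n → j < S.n → k < S.n → S.lov (S.bv i) (S.bv j) (S.bv k) = S.lov i j k
  hi : ∀ i j k, i < S.n → j < S.n → k < S.n → 1 ≤ gt S.hi (srt i j k) →
    R.T (e i) (e j) (e k) ≤ Nat.pred (gt S.hi (srt i j k))
  kn : ∀ i j, i < S.n → j < S.n → S.knv i j = true →
    (∀ k, k < S.n → R.T (e i) (e j) (e k) ≤ S.lov i j k) ∧
    ∀ x, R.N (e i) (e j) x ≠ 0 → ∃ k, k < S.n ∧ x = e k
  fl : ∀ i j k, i < 64 → j < 64 → k < 64 → ¬(i < S.n ∧ j < S.n ∧ k < S.n) →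
    gt S.lo (srt i j k) = 0
  fh : ∀ i j k, i < 64 → j < 64 → k < 64 → ¬(i < S.n ∧ j < S.n ∧ k < S.n) →
    gt S.hi (srt i j k) = 0
  fk : ∀ i j, i < 64 → j < 64 → ¬(i < S.n ∧ j < S.n) → gt S.kn (prs i j) = 0

namespace Sat
variable {κ : Type*} {R : FR κ} {a c : κ} {S : St} {e : ℕ → κ} (h : Sat R a c S e)
include h

theorem bvlt {i : ℕ} (hi : i < S.n) : S.bv i < S.n := (h.br i hi).1
theorem bare {i : ℕ} (hi : i < S.n) : R.bar (e i) = e (S.bv i) := (h.br i hi).2

theorem bvbv {i : ℕ} (hi : i < S.n) : S.bv (S.bv i) = i := by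
  apply h.inj _ _ (h.bvlt (h.bvlt hi)) hi
  rw [← h.bare (h.bvlt hi), ← h.bare hi, R.bar_bar]

theorem N_e {x y m : ℕ} (hm : m < S.n) :
    R.N (e x) (e y) (e m) = R.T (e x) (e y) (e (S.bv m)) := by
  rw [R.N_eq_T, h.bare hm]

theorem cf_le {x y m : ℕ} (hx : x < S.n) (hy : y < S.n) (hm : m < S.n) :
    S.cf x y m ≤ R.N (e x) (e y) (e m) := by
  rw [h.N_e hm]; exact h.lo _ _ _ hx hy (h.bvlt hm)

theorem injL {L : List ℕ} (hL : ∀ m ∈ L, m < S.n) : ∀ i ∈ L, ∀ j ∈ L, e i = e j → i = j :=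
  fun i hi j hj => h.inj i j (hL i hi) (hL j hj)

theorem hiv_spec {i j k : ℕ} (hi : i < S.n) (hj : j < S.n) (hk : k < S.n)
    (hv : 1 ≤ S.hiv i j k) : R.T (e i) (e j) (e k) ≤ Nat.pred (S.hiv i j k) := by
  unfold St.hiv at hv ⊢
  cases hg : Nat.beq (Nat.add (Nat.add (S.gv i) (S.gv j)) (S.gv k)) 96 with
  | false =>
    simp only [cond_false]
    have h0 : R.T (e i) (e j) (e k) = 0 := by
      by_contra h0
      have h1 := R.T_gr _ _ _ h0
      have h2 := h.gr i hi
      have h3 := h.gr j hj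
      have h4 := h.gr k hk
      have h5 : S.gv i + S.gv j + S.gv k = 96 := by
        have : ((S.gv i + S.gv j + S.gv k : ℕ) : ℤ) = 96 := by push_cast; linarith
        exact_mod_cast this
      have h6 : Nat.beq (Nat.add (Nat.add (S.gv i) (S.gv j)) (S.gv k)) 96 = true :=
        (beq_iff _ _).2 h5
      rw [hg] at h6; exact absurd h6 (by simp)
    rw [h0]; exact Nat.zero_le _
  | true =>
    rw [hg] at hv
    simp only [cond_true] at hv ⊢
    cases hk1 : (S.knv i j || (S.knv i k || S.knv j k)) with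
    | false =>
      rw [hk1] at hv
      simp only [cond_false] at hv ⊢
      exact h.hi i j k hi hj hk hv
    | true =>
      simp only [cond_true, Nat.pred_succ]
      simp only [Bool.or_eq_true] at hk1
      rcases hk1 with hk1 | hk1 | hk1
      · exact (h.kn i j hi hj hk1).1 k hk
      · rw [R.T_swap', lov_comm2]
        exact (h.kn i k hi hk hk1).1 j hj
      · rw [R.T_swap, R.T_swap', lov_comm1, lov_comm2]
        exact (h.kn j k hj hk hk1).1 i hi

theorem dsum_eq (x y : ℕ) {L : List ℕ} (hL : ∀ m ∈ L, m < S.n) :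
    S.dsum x y L = (L.map fun m => S.cf x y m * R.deg (e m)).sum := by
  induction L with
  | nil => rfl
  | cons m L ih =>
    rw [List.map_cons, List.sum_cons, ← ih (fun m' hm' => hL m' (by simp [hm'])),
      ← h.dg m (hL m (by simp))]
    rfl

omit h in
theorem qsum_eq (x y : ℕ) (L : List ℕ) :
    S.qsum x y L = (L.map fun m => S.cf x y m * S.cf x y m).sum := by

  induction L with
  | nil => rfl
  | cons m L ih => rw [List.map_cons, List.sum_cons, ← ih]; rfl

theorem lsum_le (x y : ℕ) {z w : ℕ} (hz : z < S.n) (hw : w < S.n) {L : List ℕ}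
    (hL : ∀ m ∈ L, m < S.n) :
    S.lsum x y z w L ≤ (L.map fun m => S.cf x y m * R.T (e m) (e z) (e w)).sum := by
  induction L with
  | nil => exact Nat.zero_le _
  | cons m L ih =>
    rw [List.map_cons, List.sum_cons]
    exact Nat.add_le_add (Nat.mul_le_mul_left _ (h.lo m z w (hL m (by simp)) hz hw))
      (ih (fun m' hm' => hL m' (by simp [hm'])))

theorem usum_ge (x y : ℕ) {z w : ℕ} (hz : z < S.n) (hw : w < S.n) {L : List ℕ}
    (hL : ∀ m ∈ L, m < S.n) (hok : S.hok z w L = true) :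
    (L.map fun m => S.cf x y m * R.T (e m) (e z) (e w)).sum ≤ S.usum x y z w L := by
  induction L with
  | nil => exact Nat.zero_le _
  | cons m L ih =>
    simp only [St.hok, Bool.and_eq_true, ble_iff] at hok
    rw [List.map_cons, List.sum_cons]
    exact Nat.add_le_add (Nat.mul_le_mul_left _ (h.hiv_spec (hL m (by simp)) hz hw hok.1))
      (ih (fun m' hm' => hL m' (by simp [hm'])) hok.2)

/-- splitting off a known part -/
theorem split {x y : ℕ} (w : ℕ → ℕ) {L : List ℕ} (hL : ∀ m ∈ L, m < S.n) (hn : L.Nodup)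
    (hw : ∀ m ∈ L, w m ≤ R.N (e x) (e y) (e m)) : ∃ f : κ →₀ ℕ, R.N (e x) (e y) = f + vc e w L :=
  vc_exists e w _ L hn (h.injL hL) hw

theorem splitcf {x y : ℕ} (hx : x < S.n) (hy : y < S.n) {L : List ℕ} (hL : ∀ m ∈ L, m < S.n)
    (hn : L.Nodup) : ∃ f : κ →₀ ℕ, R.N (e x) (e y) = f + vc e (S.cf x y) L ∧
      lin R.deg f + S.dsum x y L = S.dv x * S.dv y := by
  obtain ⟨f, hf⟩ := h.split (S.cf x y) hL hn (fun m hm => h.cf_le hx hy (hL m hm))
  refine ⟨f, hf, ?_⟩
  rw [h.dsum_eq x y hL, ← lin_vc, ← lin_add, ← hf, h.dg x hx, h.dg y hy]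
  exact R.deg_sum _ _

end Sat
end Pool.Agent.Helper64.Nita
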