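import Pool.Agent.Helper64.Nita.Ext

namespace Pool.Agent.Helper64.Nita

theorem vc_apply_mem {κ : Type*} (e : ℕ → κ) (w : ℕ → ℕ) (L : List ℕ) (hL : L.Nodup)
    (hinj : ∀ i ∈ L, ∀ j ∈ L, e i = e j → i = j) {m : ℕ} (hm : m ∈ L) : vc e w L (e m) = w m := by
  induction L with
  | nil => simp at hm
  | cons m' L ih =>
    have h1 : vc e w (m' :: L) = Finsupp.single (e m') (w m') + vc e w L := by simp [vc]
    rw [h1, Finsupp.add_apply]
    rw [List.nodup_cons] at hL
    rcases List.mem_cons.1 hm with rfl | hm'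
    · rw [vc_apply_notin e w L (e m) (fun m' hm' h' => hL.1 (by
        rw [hinj m (by simp) m' (by simp [hm']) h'.symm]; exact hm'))]
      simp
    · have h2 : e m ≠ e m' := fun h' => hL.1 (by
        rw [← hinj m (by simp [hm']) m' (by simp) h']; exact hm')
      rw [Finsupp.single_eq_of_ne h2, zero_add]
      exact ih hL.2 (fun i hi j hj => hinj i (by simp [hi]) j (by simp [hj])) hm'

namespace FR
variable {κ : Type*} (R : FR κ)

theorem N_deg_le (x y z : κ) : R.N x y z * R.deg z ≤ R.deg x * R.deg y := by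
  have h1 := le_lin R.deg (R.N x y) z
  have h2 := R.deg_sum x y
  unfold lin at h1
  omega

theorem deg1_spec {x y u : κ} (hu : R.deg u = 1) (hN : 1 ≤ R.N x y u) :
    R.deg x = R.deg y ∧ R.N x y u = 1 ∧ R.gr u = R.gr x + R.gr y := by
  have h1 : R.N (R.bar u) x (R.bar y) = R.N x y u := by
    rw [R.N_eq_T, R.N_eq_T, R.bar_bar, R.T_swap, R.T_swap']
  have h2 : R.N (R.bar u) y (R.bar x) = R.N x y u := by
    rw [R.N_eq_T, R.N_eq_T, R.bar_bar, R.T_swap, R.T_swap', R.T_swap]
  have h3 := R.N_deg_le (R.bar u) x (R.bar y)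
  have h4 := R.N_deg_le (R.bar u) y (R.bar x)
  rw [h1, R.deg_bar, R.deg_bar, hu] at h3
  rw [h2, R.deg_bar, R.deg_bar, hu] at h4
  have h5 := R.deg_pos x
  have h6 := R.deg_pos y
  set t := R.N x y u
  have h7 : t = 1 := by
    by_contra h7
    have : 2 ≤ t := by omega
    nlinarith
  refine ⟨by rw [h7] at h3 h4; omega, h7, ?_⟩
  have h8 : R.T x y (R.bar u) ≠ 0 := by rw [← R.N_eq_T]; omega
  have h9 := R.T_gr _ _ _ h8
  rw [R.gr_bar] at h9
  linarith

/-- a small excess comes from a single element of degree one -/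
theorem excess {x y : κ} {f : κ →₀ ℕ} (hf : ∀ z, f z ≤ R.N x y z) (h0 : f ≠ 0)
    (h2 : lin R.deg f ≤ 2) : ∃ u, R.deg u = 1 ∧ f u = 1 ∧ lin R.deg f = 1 := by
  obtain ⟨u, hu⟩ := Finsupp.ne_iff.1 h0
  have key : ∀ z, f z ≠ 0 → R.deg z = 1 ∧ R.N x y z = 1 ∧ R.gr z = R.gr x + R.gr y := by
    intro z hz
    have h3 := le_lin R.deg f z
    have h4 := R.deg_pos z
    have h5 : 1 ≤ f z := Nat.pos_of_ne_zero hz
    have h6 := R.deg_ne_two z
    have h7 : R.deg z ≤ f z * R.deg z := Nat.le_mul_of_pos_left _ h5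
    have h8 : R.deg z = 1 := by omega
    obtain ⟨-, g1, g2⟩ := R.deg1_spec h8 (le_trans h5 (hf z))
    exact ⟨h8, g1, g2⟩
  have hu' : f u ≠ 0 := hu
  obtain ⟨k1, k2, k3⟩ := key u hu'
  have hfu : f u = 1 := by
    have := hf u
    have h5 : 1 ≤ f u := Nat.pos_of_ne_zero hu'
    omega
  have hfs : f = Finsupp.single u 1 := by
    ext z
    by_cases hz : z = u
    · subst hz; rw [hfu]; simp
    · rw [Finsupp.single_eq_of_ne hz]
      by_contra hz'
      obtain ⟨l1, l2, l3⟩ := key z hz'
      exact hz (R.deg_one_eq z u l1 k1 (by rw [l3, k3]))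
  refine ⟨u, k1, hfu, ?_⟩
  rw [hfs, lin_single, k1]

end FR

theorem mem_rng {n k : ℕ} : k ∈ rng n ↔ k < n := by
  induction n with
  | zero => simp [rng]
  | succ n ih => simp only [rng, List.mem_cons, ih]; omega

theorem nodup_rng (n : ℕ) : (rng n).Nodup := by
  induction n with
  | zero => simp [rng]
  | succ n ih => simp only [rng, List.nodup_cons]; exact ⟨fun h => by have := mem_rng.1 h; omega, ih⟩

theorem exact_spec {S : St} {i j : ℕ} {L : List ℕ} (h : S.exact i j L = true) :
    ∀ k ∈ L, S.hiv i j k = S.lov i j k + 1 := by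
  induction L with
  | nil => simp
  | cons m L ih =>
    simp only [St.exact, Bool.and_eq_true, beq_iff] at h
    intro k hk
    rcases List.mem_cons.1 hk with rfl | hk
    · exact h.1
    · exact ih h.2 k hk

theorem setLo_n (S : St) (i j k v : ℕ) : (S.setLo i j k v).n = S.n := by
  unfold St.setLo
  cases (Nat.ble (S.lov i j k) v && Nat.ble (S.lov (S.bv i) (S.bv j) (S.bv k)) v) <;> rfl

theorem mem_kM {S : St} {i j r q d : ℕ} {x : St} {m : ℕ}
    (hc : m * d ≤ r ∧ m * m ≤ q ∧ r ≤ d * (m + q - m * m)) (hx : x ∈ kid S i j m d) :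
    ∀ f m0, m0 ≤ m → m < m0 + f → x ∈ kM S i j r q d f m0 := by
  intro f
  induction f with
  | zero => intro m0 h1 h2; omega
  | succ f ih =>
    intro m0 h1 h2
    unfold kM
    by_cases h3 : m0 = m
    · subst h3
      have hb : (Nat.ble (Nat.mul m0 d) r && (Nat.ble (Nat.mul m0 m0) q &&
        Nat.ble r (Nat.mul d (Nat.sub (Nat.add m0 q) (Nat.mul m0 m0))))) = true := by
        simp only [Bool.and_eq_true, ble_iff]
        exact hc
      rw [hb]
      simp only [cond_true]
      exact List.mem_append_left _ hx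
    · have h4 := ih (m0 + 1) (by omega) (by omega)
      cases (Nat.ble (Nat.mul m0 d) r && (Nat.ble (Nat.mul m0 m0) q &&
        Nat.ble r (Nat.mul d (Nat.sub (Nat.add m0 q) (Nat.mul m0 m0)))))
      · exact h4
      · exact List.mem_append_right _ h4

theorem mem_kD {S : St} {i j r q d : ℕ} {x : St} (hx : x ∈ kM S i j r q d q 1) :
    ∀ f d0, d0 ≤ d → d < d0 + f → x ∈ kD S i j r q f d0 := by
  intro f
  induction f with
  | zero => intro d0 h1 h2; omega
  | succ f ih =>
    intro d0 h1 h2
    unfold kD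
    by_cases h3 : d0 = d
    · subst h3; exact List.mem_append_left _ hx
    · exact List.mem_append_right _ (ih (d0 + 1) (by omega) (by omega))

namespace Sat
variable {κ : Type*} {R : FR κ} {a c : κ} {S : St} {e : ℕ → κ} (h : Sat R a c S e)
include h

theorem setT {i j k v : ℕ} (hi : i < S.n) (hj : j < S.n) (hk : k < S.n)
    (hv : R.T (e i) (e j) (e k) = v) : Sat R a c (S.setT i j k v) e := by
  unfold St.setT
  exact (h.setLo hi hj hk hv.ge).setHi (by rw [setLo_n]; exact hi) (by rw [setLo_n]; exact hj)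
    (by rw [setLo_n]; exact hk) hv.le

theorem kid_sat {i j m d : ℕ} {z : κ} (hi : i < S.n) (hj : j < S.n) (h5 : 5 ≤ S.n)
    (hn : S.n + 2 ≤ 64) (hz : ∀ k, k < S.n → e k ≠ z) (hd : R.deg z = d)
    (hm : R.N (e i) (e j) z = m) (hm0 : m ≠ 0) (h32 : 32 ≤ S.gv i + S.gv j)
    (h96 : S.gv i + S.gv j ≤ 96) :
    ∃ S' ∈ kid S i j m d, ∃ e' : ℕ → κ, Sat R a c S' e' := by
  have hgr : R.gr z = R.gr (e i) + R.gr (e j) := by
    have h8 : R.T (e i) (e j) (R.bar z) ≠ 0 := by rw [← R.N_eq_T, hm]; exact hm0
    have h9 := R.T_gr _ _ _ h8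
    rw [R.gr_bar] at h9
    linarith
  have hgi := h.gr i hi
  have hgj := h.gr j hj
  have hgg : ((S.gg i j : ℕ) : ℤ) = R.gr z + 32 := by
    have : S.gg i j = S.gv i + S.gv j - 32 := rfl
    rw [this, Nat.cast_sub h32]; push_cast; linarith
  have hgg' : ((Nat.sub 64 (S.gg i j) : ℕ) : ℤ) = - R.gr z + 32 := by
    have h1 : S.gg i j = S.gv i + S.gv j - 32 := rfl
    have h2 : S.gg i j ≤ 64 := by omega
    have h3 : Nat.sub 64 (S.gg i j) = 64 - S.gg i j := rfl
    rw [h3, Nat.cast_sub h2]; push_cast; linarith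
  by_cases hr : R.bar z = z
  · have hg0 : R.gr z = 0 := by
      have := R.gr_bar z
      rw [hr] at this; linarith
    have hb : Nat.beq (S.gg i j) 32 = true := by
      rw [beq_iff]
      have : ((S.gg i j : ℕ) : ℤ) = 32 := by rw [hgg, hg0]; rfl
      exact_mod_cast this
    refine ⟨(S.addR d).setT i j S.n m, ?_, Function.update e S.n z, ?_⟩
    · unfold kid; rw [hb]; simp
    · have hs := h.addR (d := d) (e' := Function.update e S.n z) (by omega)
        (fun k hk => Function.update_of_ne (by omega) _ _)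
        (by rw [Function.update_of_ne (by omega)]; exact h.e2)
        (by rw [Function.update_of_ne (by omega)]; exact h.e4)
        (fun k hk => by rw [Function.update_self]; exact hz k hk)
        (by rw [Function.update_self]; exact hr) (by rw [Function.update_self]; exact hd)
      refine hs.setT (i := i) (j := j) (k := S.n) (show i < S.n + 1 by omega)
        (show j < S.n + 1 by omega) (show S.n < S.n + 1 by omega) ?_
      rw [Function.update_of_ne (by omega), Function.update_of_ne (by omega), Function.update_self,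
        ← hm, R.N_eq_T, hr]
  · have hs : ∀ g g' : ℕ, (g : ℤ) = R.gr z + 32 → (g' : ℤ) = - R.gr z + 32 →
        ∃ e' : ℕ → κ, Sat R a c ((S.addN d g g').setT i j (Nat.succ S.n) m) e' := by
      intro g g' hg hg'
      refine ⟨Function.update (Function.update e S.n z) (S.n + 1) (R.bar z), ?_⟩
      have e1 : ∀ k, k < S.n → Function.update (Function.update e S.n z) (S.n + 1) (R.bar z) k = e k := by
        intro k hk
        rw [Function.update_of_ne (by omega), Function.update_of_ne (by omega)]
      have e2 : Function.update (Function.update e S.n z) (S.n + 1) (R.bar z) S.n = z := by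
        rw [Function.update_of_ne (by omega), Function.update_self]
      have e3 : Function.update (Function.update e S.n z) (S.n + 1) (R.bar z) (S.n + 1) = R.bar z :=
        Function.update_self _ _ _
      have hs := h.addN (d := d) (g := g) (g' := g')
        (e' := Function.update (Function.update e S.n z) (S.n + 1) (R.bar z)) (by omega) e1
        (by rw [e1 2 (by omega)]; exact h.e2) (by rw [e1 4 (by omega)]; exact h.e4)
        (fun k hk => by rw [e2]; exact hz k hk) (by rw [e2, e3]) (by rw [e2, e3]; exact hr)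
        (by rw [e2]; exact hd) (by rw [e2]; exact hg) (by rw [e2]; exact hg')
      refine hs.setT (i := i) (j := j) (k := Nat.succ S.n) (show i < S.n + 2 by omega)
        (show j < S.n + 2 by omega) (show S.n + 1 < S.n + 2 by omega) ?_
      change R.T _ _ (Function.update (Function.update e S.n z) (S.n + 1) (R.bar z) (S.n + 1)) = m
      rw [e1 i hi, e1 j hj, e3, ← hm, R.N_eq_T]
    unfold kid
    cases hb : Nat.beq (S.gg i j) 32 with
    | true =>
      have h0 : R.gr z = 0 := by
        rw [beq_iff] at hb; rw [hb] at hgg; push_cast at hgg; linarith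
      obtain ⟨e', he'⟩ := hs 32 32 (by rw [h0]; rfl) (by rw [h0]; rfl)
      exact ⟨_, by simp, e', he'⟩
    | false =>
      obtain ⟨e', he'⟩ := hs _ _ hgg hgg'
      exact ⟨_, by simp, e', he'⟩

end Sat
end Pool.Agent.Helper64.Nita
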